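import Pool.Agent.H688R2.Sym.Main

/-!
# Majority has no small circuits with large alternating symmetry
-/

namespace H688R2.Sym

open Equiv Finset

section reads

variable {I Q : Type*} [Fintype Q]

theorem val_congr (C : Circuit I Q) (x x' : I → Prop)
    (hx : ∀ q i, C.input q = some i → (x i ↔ x' i)) :
    ∀ n q, C.level q = n → (C.val x q ↔ C.val x' q) := by
  classical
  intro n
  induction n using Nat.strong_induction_on with
  | _ n ih =>
    intro q hq
    rcases hi : C.input q with _ | i
    · rw [val_gate C x _ hi, val_gate C x' _ hi]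
      have key : ∀ q', C.wires q q' ≠ 0 → (C.val x q' ↔ C.val x' q') := by
        intro q' hw
        exact ih (C.level q') (by rw [← hq]; exact C.level_lt q q' hw) q' rfl
      have e1 : (∑ q', if C.val x q' then C.wires q q' else 0)
          = ∑ q', if C.val x' q' then C.wires q q' else 0 := by
        apply sum_congr rfl
        intro q' _
        by_cases hw : C.wires q q' = 0
        · rw [hw]; simp
        · simp only [key q' hw]
      have e2 : (∑ q', if ¬ C.val x q' then C.wires q q' else 0)
          = ∑ q', if ¬ C.val x' q' then C.wires q q' else 0 := by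
        apply sum_congr rfl
        intro q' _
        by_cases hw : C.wires q q' = 0
        · rw [hw]; simp
        · simp only [key q' hw]
      rw [e1, e2]
    · rw [val_input C x _ _ hi, val_input C x' _ _ hi, hx q i hi]

theorem majority_finset [Fintype I] [DecidableEq I] (T : Finset I) :
    Majority (fun i => i ∈ T) ↔ Fintype.card I ≤ 2 * T.card := by
  unfold Majority
  rw [Nat.card_eq_fintype_card, Nat.card_eq_fintype_card, Fintype.card_coe]

/-- a circuit computing majority reads all inputs -/
theorem reads [Fintype I] (C : Circuit I Q) (hM : C.Computes Majority) (i : I) :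
    ∃ q, C.input q = some i := by
  classical
  by_contra hno
  push Not at hno
  have hpos : 0 < Fintype.card I := Fintype.card_pos_iff.2 ⟨i⟩
  obtain ⟨T, hT, hTc⟩ := exists_subset_card_eq (s := (univ : Finset I).erase i)
    (n := (Fintype.card I + 1) / 2 - 1) (by
      rw [card_erase_of_mem (mem_univ i), card_univ]; omega)
  have hiT : i ∉ T := fun h => by have := hT h; simp at this
  have h1 := hM (fun j => j ∈ T)
  have h2 := hM (fun j => j ∈ insert i T)
  rw [majority_finset] at h1 h2
  rw [card_insert_of_notMem hiT] at h2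
  have h3 := val_congr C (fun j => j ∈ T) (fun j => j ∈ insert i T) (by
    intro q j hj
    have hji : j ≠ i := by rintro rfl; exact hno q hj
    simp [hji]) _ C.out rfl
  rw [h1, h2] at h3
  omega

end reads

section main

variable {α : Type*} [DecidableEq α] [Fintype α] {I Q : Type*} [Fintype I] [Fintype Q]
  [MulAction (Perm α) I] [MulAction (Perm α) Q]

theorem sup_input {C : Circuit I Q} (hC : C.Invariant α) {k : ℕ}
    (hk : ∀ q : Q, (sup q : Finset α).card ≤ k ∧ IsSup (sup q : Finset α) q)
    (hK : 2 * k + 3 ≤ Fintype.card α) {q : Q} {i : I} (hi : C.input q = some i) :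
    (sup i : Finset α) ⊆ sup q ∧ IsSup (sup i : Finset α) i := by
  have h1 : IsSup (sup q : Finset α) i := by
    intro h hs hfix
    have h2 := hC.input h q
    rw [(hk q).2 h hs hfix, hi] at h2
    simpa using h2.symm
  have h2 : 2 * (sup q : Finset α).card + 3 ≤ Fintype.card α := by
    have := (hk q).1
    omega
  exact ⟨sup_subset h1 h2, isSup_sup h1 h2⟩

open scoped Classical in
/-- the number of inputs with nonempty support inside `y` -/
noncomputable def wt (I : Type*) [Fintype I] [MulAction (Perm α) I] (y : Finset α) : ℕ :=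
  (univ.filter fun i : I => (sup i : Finset α) ≠ ∅ ∧ sup i ⊆ y).card

open scoped Classical in
/-- the number of inputs with nonempty support -/
noncomputable def tot (α I : Type*) [DecidableEq α] [Fintype α] [Fintype I]
    [MulAction (Perm α) I] : ℕ :=
  (univ.filter fun i : I => (sup i : Finset α) ≠ ∅).card

omit [Fintype Q] [MulAction (Perm α) Q] in
theorem exists_map {y y' : Finset α} (h : y.card = y'.card) :
    ∃ π : Perm α, y.map π.toEmbedding = y' := by
  have he : Fintype.card {x // x ∈ y} = Fintype.card {x // x ∈ y'} := by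
    rw [Fintype.card_coe, Fintype.card_coe, h]
  let e : {x // x ∈ y} ≃ {x // x ∈ y'} := Fintype.equivOfCardEq he
  refine ⟨e.extendSubtype, ?_⟩
  ext x
  rw [mem_map]
  constructor
  · rintro ⟨z, hz, rfl⟩
    exact e.extendSubtype_mem z hz
  · intro hx
    refine ⟨e.extendSubtype⁻¹ x, ?_, by simp⟩
    by_contra h'
    have := e.extendSubtype_not_mem _ h'
    rw [H534R2.SymSw.p_apply_inv] at this
    exact this hx

theorem wt_map (π : Perm α) (y : Finset α) : wt I (y.map π.toEmbedding) = wt I y := by
  classical
  unfold wt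
  have : (univ.filter fun i : I => (sup i : Finset α) ≠ ∅ ∧ sup i ⊆ y.map π.toEmbedding)
      = (univ.filter fun i : I => (sup i : Finset α) ≠ ∅ ∧ sup i ⊆ y).map
        (MulAction.toPerm π).toEmbedding := by
    ext i
    simp only [mem_filter, mem_univ, true_and, mem_map, Equiv.coe_toEmbedding,
      MulAction.toPerm_apply]
    constructor
    · rintro ⟨h1, h2⟩
      refine ⟨π⁻¹ • i, ?_, by simp⟩
      have h3 : sup i = (sup (π⁻¹ • i) : Finset α).map π.toEmbedding := by
        rw [← sup_smul]; simp
      rw [h3] at h1 h2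
      constructor
      · intro h; rw [h] at h1; simp at h1
      · exact (map_subset_map).1 h2
    · rintro ⟨j, ⟨h1, h2⟩, rfl⟩
      rw [sup_smul]
      exact ⟨by simpa using h1, map_subset_map.2 h2⟩
  rw [this, card_map]

theorem wt_eq {y y' : Finset α} (h : y.card = y'.card) : wt I y = wt I y' := by
  obtain ⟨π, hπ⟩ := exists_map h
  rw [← hπ, wt_map]

/-- disjoint blocks of size `s` -/
theorem exists_blocks (p s : ℕ) (h : p * s ≤ Fintype.card α) :
    ∃ z : Fin p → Finset α, (∀ j, (z j).card = s) ∧ ∀ i j, i ≠ j → Disjoint (z i) (z j) := by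
  classical
  let e : Fin (p * s) ↪ α :=
    (Fin.castLEEmb h).trans (Fintype.equivFin α).symm.toEmbedding
  let f : Fin p × Fin s ↪ α := (finProdFinEquiv (m := p) (n := s)).toEmbedding.trans e
  refine ⟨fun j => (univ : Finset (Fin s)).map
    ⟨fun i => f (j, i), fun a b hab => by simpa using f.injective hab⟩, ?_, ?_⟩
  · intro j; simp
  · intro i j hij
    rw [disjoint_left]
    intro a ha hb
    simp only [mem_map, mem_univ, true_and, Function.Embedding.coeFn_mk] at ha hb
    obtain ⟨u, rfl⟩ := ha
    obtain ⟨v, hv⟩ := hb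
    have := f.injective hv
    simp only [Prod.mk.injEq] at this
    exact hij this.1.symm

theorem wt_low {y : Finset α} (hy : 3 * y.card ≤ Fintype.card α) : 3 * wt I y ≤ tot α I := by
  classical
  obtain ⟨z, hz, hd⟩ := exists_blocks (α := α) 3 y.card hy
  have h1 : ∀ j, wt I (z j) = wt I y := fun j => wt_eq (hz j)
  have h2 : ∑ j : Fin 3, wt I (z j) ≤ tot α I := by
    unfold wt tot
    rw [← card_biUnion]
    · apply card_le_card
      intro i hi
      rw [mem_biUnion] at hi
      obtain ⟨j, -, hj⟩ := hi
      simp only [mem_filter, mem_univ, true_and] at hj ⊢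
      exact hj.1
    · intro i _ j _ hij
      show Disjoint _ _
      rw [disjoint_left]
      intro u hu hv
      simp only [mem_filter, mem_univ, true_and] at hu hv
      obtain ⟨a, ha⟩ := nonempty_iff_ne_empty.2 hu.1
      exact disjoint_left.1 (hd i j hij) (hu.2 ha) (hv.2 ha)
  simp only [h1, sum_const, card_univ, Fintype.card_fin, smul_eq_mul] at h2
  exact h2

theorem wt_high {k s : ℕ} (hk : ∀ i : I, (sup i : Finset α).card ≤ k) (hk0 : 0 < k)
    (hs : 3 * k * s ≤ Fintype.card α) {y : Finset α} (hy : y.card + s = Fintype.card α) :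
    2 * tot α I ≤ 3 * wt I y := by
  classical
  obtain ⟨z, hz, hd⟩ := exists_blocks (α := α) (3 * k) s hs
  have h1 : ∀ j, wt I (z j)ᶜ = wt I y := fun j => wt_eq (by rw [card_compl, hz j]; omega)
  have h2 : ∀ j, tot α I = wt I (z j)ᶜ +
      (univ.filter fun i : I => ∃ a ∈ (sup i : Finset α), a ∈ z j).card := by
    intro j
    unfold tot wt
    rw [← card_union_of_disjoint]
    · congr 1
      ext i
      simp only [mem_filter, mem_univ, true_and, mem_union]
      constructor
      · intro h
        by_cases h' : ∃ a ∈ (sup i : Finset α), a ∈ z j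
        · exact Or.inr h'
        · push Not at h'
          exact Or.inl ⟨h, fun a ha => mem_compl.2 (h' a ha)⟩
      · rintro (h | ⟨a, h, -⟩)
        · exact h.1
        · intro h0
          rw [h0] at h
          simp at h
    · rw [disjoint_left]
      intro i hi hi'
      simp only [mem_filter, mem_univ, true_and] at hi hi'
      obtain ⟨a, ha, ha'⟩ := hi'
      exact (mem_compl.1 (hi.2 ha)) ha'
  have h3 : ∑ j : Fin (3 * k), (univ.filter fun i : I => ∃ a ∈ (sup i : Finset α), a ∈ z j).card
      ≤ k * tot α I := by
    have e1 : ∀ j, (univ.filter fun i : I => ∃ a ∈ (sup i : Finset α), a ∈ z j).card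
        = ∑ i : I, if ∃ a ∈ (sup i : Finset α), a ∈ z j then 1 else 0 := by
      intro j
      rw [card_filter]
    rw [sum_congr rfl (fun j _ => e1 j), sum_comm]
    have e2 : k * tot α I = ∑ i : I, if (sup i : Finset α) ≠ ∅ then k else 0 := by
      unfold tot
      rw [card_filter, mul_sum]
      apply sum_congr rfl
      intro i _
      split_ifs <;> simp
    rw [e2]
    apply sum_le_sum
    intro i _
    by_cases h : (sup i : Finset α) = ∅
    · rw [if_neg (by simpa using h)]
      simp [h]
    · rw [if_pos h]
      rw [← card_filter]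
      refine le_trans ?_ (hk i)
      have hch : ∀ j ∈ univ.filter (fun j : Fin (3 * k) => ∃ a ∈ (sup i : Finset α), a ∈ z j),
          ∃ a ∈ (sup i : Finset α), a ∈ z j := by
        intro j hj
        simpa using hj
      obtain ⟨a0, -⟩ := nonempty_iff_ne_empty.2 h
      have : Nonempty α := ⟨a0⟩
      choose! f hf using hch
      apply card_le_card_of_injOn f
      · intro j hj
        exact (hf j hj).1
      · intro j hj j' hj' he
        by_contra hne
        apply disjoint_left.1 (hd j j' hne) (hf j hj).2
        rw [he]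
        exact (hf j' hj').2
  have h4 : ∀ j, (univ.filter fun i : I => ∃ a ∈ (sup i : Finset α), a ∈ z j).card
      = tot α I - wt I y := by
    intro j
    have := h2 j
    rw [h1 j] at this
    omega
  simp only [h4, sum_const, card_univ, Fintype.card_fin, smul_eq_mul] at h3
  have h5 : 3 * (tot α I - wt I y) ≤ tot α I := by
    have : k * (3 * (tot α I - wt I y)) ≤ k * tot α I := by
      calc k * (3 * (tot α I - wt I y)) = 3 * k * (tot α I - wt I y) := by ring
        _ ≤ _ := h3
    exact Nat.le_of_mul_le_mul_left this hk0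
  omega

/-- **Lower bound.** -/
theorem majority_lower (C : Circuit I Q) (hC : C.Invariant α) {m t k : ℕ} (hm : m ≠ 0)
    (hk1 : 1 ≤ k) (hG : C.ModGates m t) (hM : C.Computes Majority)
    (hmove : ∃ (i : I) (π : Perm α), Perm.sign π = 1 ∧ π • i ≠ i)
    (hcon : 16 * (k + 1) * (k + t + 1) * (Nat.log 2 (Fintype.card α) + 1)
      + 3 * m * k ^ m.primeFactors.card ≤ Fintype.card α) :
    Fintype.card α ^ k < Fintype.card Q ^ 2 := by
  classical
  by_contra hQ
  push Not at hQ
  set K := Fintype.card α with hKdef
  set P := per m k with hPdef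
  have hP : P ≤ m * k ^ m.primeFactors.card := per_le m k (by omega)
  have hPpos : 0 < P := per_pos m k hm
  set l := Nat.log 2 K + 1 with hl
  have hl1 : 1 ≤ l := by omega
  have b0 : 16 * (k + 1) * (k + t + 1) * l ≤ K := by omega
  have b00 : 16 * (k + 1) * (k + t + 1) + 3 * m * k ^ m.primeFactors.card ≤ K := by
    have : 16 * (k + 1) * (k + t + 1) ≤ 16 * (k + 1) * (k + t + 1) * l :=
      Nat.le_mul_of_pos_right _ hl1
    omega
  have b1 : 16 * (k + 1) * (k + 1) * l ≤ K := by
    refine le_trans ?_ b0
    apply Nat.mul_le_mul_right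
    apply Nat.mul_le_mul_left
    omega
  have b2 : 3 * k * (2 * k + t + 1) ≤ K := by
    have : 3 * k * (2 * k + t + 1) ≤ 16 * (k + 1) * (k + t + 1) := by nlinarith
    omega
  have b3 : 3 * (2 * k + t + 1 + P) ≤ K := by
    have h1 : 3 * (2 * k + t + 1) ≤ 16 * (k + 1) * (k + t + 1) := by nlinarith
    have h2 : 3 * P ≤ 3 * m * k ^ m.primeFactors.card := by
      calc 3 * P ≤ 3 * (m * k ^ m.primeFactors.card) := Nat.mul_le_mul_left _ hP
        _ = _ := by ring
    omega
  have hk : ∀ q : Q, (sup q : Finset α).card ≤ k ∧ IsSup (sup q : Finset α) q :=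
    fun q => small_sup hk1 hQ b1 q
  have hkI : ∀ i : I, (sup i : Finset α).card ≤ k ∧ IsSup (sup i : Finset α) i := by
    intro i
    obtain ⟨q, hq⟩ := reads C hM i
    have := sup_input hC hk (by omega) hq
    exact ⟨(card_le_card this.1).trans (hk q).1, this.2⟩
  -- the balanced constants
  obtain ⟨Z₁, hZ₁, hZ₁c⟩ := exists_subset_card_eq
    (s := univ.filter fun i : I => (sup i : Finset α) = ∅)
    (n := (univ.filter fun i : I => (sup i : Finset α) = ∅).card / 2) (by omega)
  have hZsup : ∀ i ∈ Z₁, (sup i : Finset α) = ∅ := by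
    intro i hi
    have := hZ₁ hi
    simpa using this
  let x : Finset α → I → Prop := fun y i =>
    i ∈ Z₁ ∪ univ.filter (fun i : I => (sup i : Finset α) ≠ ∅ ∧ sup i ⊆ y)
  have hxdef : ∀ y i, x y i ↔ i ∈ Z₁ ∨ ((sup i : Finset α) ≠ ∅ ∧ sup i ⊆ y) := by
    intro y i
    simp [x]
  have hxe : ∀ h : Perm α, Perm.sign h = 1 → ∀ y i, x (y.map h.toEmbedding) (h • i) ↔ x y i := by
    intro h hs y i
    rw [hxdef, hxdef]
    by_cases hi : (sup i : Finset α) = ∅
    · have : h • i = i := (hkI i).2 h hs (by rw [hi]; simp)
      rw [this]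
      simp [hi]
    · have h1 : (sup (h • i) : Finset α) ≠ ∅ := by rw [sup_smul]; simpa using hi
      have h2 : h • i ∉ Z₁ := fun h' => h1 (hZsup _ h')
      have h3 : i ∉ Z₁ := fun h' => hi (hZsup _ h')
      have h4 : (sup (h • i) : Finset α) ⊆ y.map h.toEmbedding ↔ sup i ⊆ y := by
        rw [sup_smul]; exact map_subset_map
      simp only [h1, h2, h3, h4, hi, false_or, ne_eq, not_false_eq_true, true_and]
  have hxi : ∀ q i, C.input q = some i → ∀ y y' : Finset α,
      (∀ a ∈ (sup q : Finset α), a ∈ y ↔ a ∈ y') → (x y i ↔ x y' i) := by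
    intro q i hi y y' hag
    rw [hxdef, hxdef]
    have hsub := (sup_input hC hk (by omega) hi).1
    have : (sup i : Finset α) ⊆ y ↔ sup i ⊆ y' := by
      constructor
      · intro h a ha
        exact (hag a (hsub ha)).1 (h ha)
      · intro h a ha
        exact (hag a (hsub ha)).2 (h ha)
    rw [this]
  -- the sizes
  set L := 2 * k + t + 1 with hL
  obtain ⟨yh, hyh⟩ : ∃ y : Finset α, y.card = K - L := by
    obtain ⟨y, -, hy⟩ := exists_subset_card_eq (s := (univ : Finset α)) (n := K - L) (by
      rw [card_univ]; omega)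
    exact ⟨y, hy⟩
  obtain ⟨yl, hyl⟩ : ∃ y : Finset α, y.card = L + (K - L - L) % P := by
    obtain ⟨y, -, hy⟩ := exists_subset_card_eq (s := (univ : Finset α))
      (n := L + (K - L - L) % P) (by
        rw [card_univ]
        have := Nat.mod_lt (K - L - L) hPpos
        omega)
    exact ⟨y, hy⟩
  have hmod := Nat.mod_lt (K - L - L) hPpos
  have hmid_h : Mid L yh := by
    constructor
    · rw [hyh]; omega
    · rw [hyh]; omega
  have hmid_l : Mid L yl := by
    constructor
    · rw [hyl]; omega
    · rw [hyl]; omega
  have hcong : yl.card ≡ yh.card [MOD P] := by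
    rw [hyh, hyl]
    have : K - L = L + (K - L - L) := by omega
    rw [this]
    exact Nat.ModEq.add_left _ (by
      have e : L + (K - L - L) - L - L = K - L - L - L := by omega
      have e2 : L + (K - L - L) - L = K - L - L := by omega
      rw [e2]
      exact Nat.mod_modEq _ _)
  have hout : (sup C.out : Finset α) = ∅ := by
    have h1 : IsSup (∅ : Finset α) C.out := fun h _ _ => hC.out h
    have h2 := sup_subset h1 (by simp; omega)
    exact subset_empty.1 h2
  have hval := val_periodic C hC hm hG hk x hxe hxi _ C.out rfl yl yh hmid_l hmid_h hcong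
    (by rw [hout]; simp)
  have hcardx : ∀ y : Finset α, (Z₁ ∪ univ.filter (fun i : I => (sup i : Finset α) ≠ ∅ ∧ sup i ⊆ y)).card
      = Z₁.card + wt I y := by
    intro y
    rw [card_union_of_disjoint]
    · rfl
    · rw [disjoint_left]
      intro i hi hi'
      simp only [mem_filter, mem_univ, true_and] at hi'
      exact hi'.1 (hZsup i hi)
  have hcardI : Fintype.card I = (univ.filter fun i : I => (sup i : Finset α) = ∅).card
      + tot α I := by
    unfold tot
    rw [← card_univ, ← card_filter_add_card_filter_not (s := univ)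
      (fun i : I => (sup i : Finset α) = ∅)]
  have hmaj : ∀ y : Finset α, C.val (x y) C.out ↔ Fintype.card I ≤ 2 * (Z₁.card + wt I y) := by
    intro y
    rw [hM (x y), ← hcardx y]
    exact majority_finset _
  have htot : 1 ≤ tot α I := by
    by_contra h0
    have h1 : tot α I = 0 := by omega
    unfold tot at h1
    rw [card_eq_zero, filter_eq_empty_iff] at h1
    obtain ⟨i, π, hs, hne⟩ := hmove
    apply hne
    have h2 := h1 (mem_univ i)
    simp only [ne_eq, not_not] at h2
    exact (hkI i).2 π hs (by rw [h2]; simp)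
  have hlow : 3 * wt I yl ≤ tot α I := wt_low (by rw [hyl]; omega)
  have hhigh : 2 * tot α I ≤ 3 * wt I yh :=
    wt_high (α := α) (I := I) (s := L) (fun i => (hkI i).1) (by omega) b2 (by rw [hyh]; omega)
  rw [hmaj, hmaj] at hval
  omega

end main

end H688R2.Sym
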