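import Pool.Agent.H688R2.Sym.Equiv

/-!
# No polynomial-size circuits symmetric under more than `(log n) ^ ω(m)` inputs
-/

namespace H688R2.Sym

open Equiv Finset

theorem exists_two_pow (A B : ℕ) : ∃ s, 1 ≤ s ∧ A * (B * s + 1) ≤ 2 ^ s := by
  refine ⟨2 * (A * (2 * B + 1) + 1), by omega, ?_⟩
  set t := A * (2 * B + 1) + 1 with ht
  have h1 : t < 2 ^ t := Nat.lt_two_pow_self
  calc A * (B * (2 * t) + 1) ≤ (A * (2 * B + 1)) * t := by
        have : 1 ≤ t := by omega
        nlinarith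
    _ ≤ 2 ^ t * 2 ^ t := Nat.mul_le_mul (by omega) h1.le
    _ = 2 ^ (2 * t) := by rw [← pow_add]; congr 1; ring

theorem numeric (e m w c s L K A k : ℕ) (hA : A = 2000 * (e + 1) ^ 2
      + 6 * m * (4 * (e + 1)) ^ w + 4) (hLpos : 1 ≤ L)
    (hAL : 4 * A * ((c + 1) * s + 1) ≤ L) (hK : K = L ^ c) (hk : k = 4 * (e + 1) * L)
    (hc : 3 ≤ c) (hw : w < c) :
    16 * (k + 1) * (k + 1 + 1) * (s * c + 1) + 3 * m * k ^ w ≤ K := by
  have e1 : 2 * (16 * (k + 1) * (k + 1 + 1) * (s * c + 1)) ≤ K := by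
    have u0 : 1 ≤ (e + 1) * L := Nat.mul_pos (by omega) hLpos
    have u1 : k + 1 + 1 ≤ 6 * ((e + 1) * L) := by
      have : k = 4 * ((e + 1) * L) := by rw [hk]; ring
      omega
    have u2 : 2 * (16 * (k + 1) * (k + 1 + 1) * (s * c + 1))
        ≤ 2 * (16 * (6 * ((e + 1) * L)) * (6 * ((e + 1) * L)) * (s * c + 1)) := by
      apply Nat.mul_le_mul_left
      apply Nat.mul_le_mul_right
      exact Nat.mul_le_mul (Nat.mul_le_mul_left _ (by omega)) u1
    have u3 : 2 * (16 * (6 * ((e + 1) * L)) * (6 * ((e + 1) * L)) * (s * c + 1))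
        = (1152 * (e + 1) ^ 2 * (s * c + 1)) * L ^ 2 := by ring
    have u4 : 1152 * (e + 1) ^ 2 * (s * c + 1) ≤ L := by
      refine le_trans ?_ hAL
      apply Nat.mul_le_mul
      · have : 1152 * (e + 1) ^ 2 ≤ 4 * (2000 * (e + 1) ^ 2) := by
          rw [← mul_assoc]
          exact Nat.mul_le_mul_right _ (by norm_num)
        refine this.trans (Nat.mul_le_mul_left _ ?_)
        rw [hA, add_assoc]
        exact Nat.le_add_right _ _
      · apply Nat.add_le_add_right
        rw [mul_comm]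
        exact Nat.mul_le_mul_right _ (by omega)
    have u5 : L ^ 3 ≤ K := by rw [hK]; exact Nat.pow_le_pow_right hLpos hc
    calc _ ≤ _ := u2
      _ = _ := u3
      _ ≤ L * L ^ 2 := Nat.mul_le_mul_right _ u4
      _ = L ^ 3 := by ring
      _ ≤ K := u5
  have e2 : 2 * (3 * m * k ^ w) ≤ K := by
    have u1 : 2 * (3 * m * k ^ w) = (6 * m * (4 * (e + 1)) ^ w) * L ^ w := by
      rw [hk, mul_pow]; ring
    have u2 : 6 * m * (4 * (e + 1)) ^ w ≤ L := by
      refine le_trans ?_ hAL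
      have h1 : 6 * m * (4 * (e + 1)) ^ w ≤ A := by
        rw [hA, add_assoc, add_comm (6 * m * (4 * (e + 1)) ^ w) 4, ← add_assoc]
        exact Nat.le_add_left _ _
      refine h1.trans ?_
      calc A = A * 1 := (mul_one A).symm
        _ ≤ 4 * A * ((c + 1) * s + 1) := Nat.mul_le_mul (by omega) (by omega)
    have u3 : L ^ (w + 1) ≤ K := by rw [hK]; exact Nat.pow_le_pow_right hLpos (by omega)
    calc _ = _ := u1
      _ ≤ L * L ^ w := Nat.mul_le_mul_right _ u2
      _ = L ^ (w + 1) := by ring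
      _ ≤ K := u3
  omega

theorem size_small (e L K k q : ℕ) (hLpos : 1 ≤ L) (hk : k = 4 * (e + 1) * L) (hK : 4 ≤ K)
    (hq : q ≤ (2 ^ L + 2) ^ e) : q ^ 2 ≤ K ^ k := by
  calc q ^ 2 ≤ ((2 ^ L + 2) ^ e) ^ 2 := Nat.pow_le_pow_left hq 2
    _ ≤ ((2 ^ (2 * L)) ^ e) ^ 2 := by
      apply Nat.pow_le_pow_left
      apply Nat.pow_le_pow_left
      have h2 : 2 ≤ 2 ^ L := by
        calc 2 = 2 ^ 1 := rfl
          _ ≤ 2 ^ L := Nat.pow_le_pow_right (by norm_num) hLpos
      have h22 : 2 ^ (2 * L) = 2 ^ L * 2 ^ L := by rw [← pow_add]; congr 1; ring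
      rw [h22]
      nlinarith
    _ = 2 ^ (4 * e * L) := by rw [← pow_mul, ← pow_mul]; congr 1; ring
    _ ≤ 2 ^ k := by
      apply Nat.pow_le_pow_right (by norm_num)
      rw [hk]
      apply Nat.mul_le_mul_right
      omega
    _ ≤ K ^ k := Nat.pow_le_pow_left (by omega) k

theorem not_symMaj (m c e : ℕ) (hm : m ≠ 0) (hc : 3 ≤ c) (hω : m.primeFactors.card < c) :
    ¬ SymMaj m c e := by
  classical
  intro hS
  -- parameters
  set w := m.primeFactors.card with hw
  set A := 2000 * (e + 1) ^ 2 + 6 * m * (4 * (e + 1)) ^ w + 4 with hA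
  obtain ⟨s, hs1, hs⟩ := exists_two_pow (A * 4) (c + 1)
  set L := 2 ^ s with hL
  have hAL : 4 * A * ((c + 1) * s + 1) ≤ L := by
    calc 4 * A * ((c + 1) * s + 1) = A * 4 * ((c + 1) * s + 1) := by ring
      _ ≤ L := hs
  set K := L ^ c with hK
  have hK2 : K = 2 ^ (s * c) := by rw [hK, hL, ← pow_mul]
  have hsc : s * c ≤ L := by
    have h1 : 1 ≤ A := by omega
    have h2 : (c + 1) * s + 1 ≤ 4 * A * ((c + 1) * s + 1) := Nat.le_mul_of_pos_left _ (by omega)
    nlinarith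
  have hKn : K ≤ 2 ^ L := by rw [hK2]; exact Nat.pow_le_pow_right (by norm_num) hsc
  set n := 2 ^ L with hn
  set k := 4 * (e + 1) * L with hk
  have hLpos : 1 ≤ L := Nat.one_le_two_pow
  have hlog : Nat.log 2 n = L := by rw [hn]; exact Nat.log_pow (by norm_num) L
  have hlogK : Nat.log 2 K = s * c := by rw [hK2]; exact Nat.log_pow (by norm_num) _
  have hcard : Fintype.card (Fin K) + Fintype.card (Fin (n - K)) = n := by
    rw [Fintype.card_fin, Fintype.card_fin]; omega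
  obtain ⟨Q, iQ, aQ, C, h1, h2, h3, h4⟩ := hS (Fin K) (Fin (n - K)) inferInstance inferInstance
    (by rw [hcard, hlog, Fintype.card_fin])
  rw [hcard] at h4
  have hcond : 16 * (k + 1) * (k + 1 + 1) * (Nat.log 2 (Fintype.card (Fin K)) + 1)
      + 3 * m * k ^ m.primeFactors.card ≤ Fintype.card (Fin K) := by
    rw [Fintype.card_fin, hlogK]
    exact numeric e m w c s L K A k hA hLpos hAL hK hk hc hω
  have hKbig : 4 ≤ K := by
    have : 4 ≤ L := by
      refine le_trans ?_ hAL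
      have hA4 : 4 ≤ A := by omega
      calc 4 ≤ 4 * A * 1 := by omega
        _ ≤ 4 * A * ((c + 1) * s + 1) := Nat.mul_le_mul_left _ (by omega)
    calc 4 ≤ L := this
      _ = L ^ 1 := (pow_one L).symm
      _ ≤ K := Nat.pow_le_pow_right hLpos (by omega)
  letI : MulAction (Perm (Fin K)) (Fin K ⊕ Fin (n - K)) := moveLeft (Fin K) (Fin (n - K))
  have hmain := majority_lower (α := Fin K) C h1 hm (k := k) (by rw [hk]; nlinarith) h2 h3 (by
    let a : Fin K := ⟨0, by omega⟩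
    let b : Fin K := ⟨1, by omega⟩
    let c : Fin K := ⟨2, by omega⟩
    have hab : a ≠ b := by simp [a, b]
    have hbc : b ≠ c := by simp [b, c]
    have hac : a ≠ c := by simp [a, c]
    refine ⟨Sum.inl a, H534R2.SymSw.c3 a b c, ?_, ?_⟩
    · unfold H534R2.SymSw.c3
      rw [map_mul, Perm.sign_swap hab, Perm.sign_swap hbc]; rfl
    · show Sum.inl (H534R2.SymSw.c3 a b c a) ≠ Sum.inl a
      rw [H534R2.SymSw.c3_apply1 hab hac]
      intro h
      exact hab (Sum.inl.inj h).symm) hcond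
  -- contradiction
  rw [Fintype.card_fin] at hmain
  have g1 : Fintype.card Q ^ 2 ≤ K ^ k := size_small e L K k _ hLpos hk hKbig h4
  omega

end H688R2.Sym
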