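import Pool.Agent.H534R2.SymSupport

/-!
# Canonical supports
-/

namespace H688R2.Sym

open Equiv Finset H534R2.SymSw

variable {α : Type*} [DecidableEq α] [Fintype α] {X : Type*} [MulAction (Perm α) X]

omit [Fintype α] in
theorem T3_smul (π : Perm α) (q : X) (a b c : α) :
    T3 (π • q) (π a) (π b) (π c) ↔ T3 q a b c := by
  unfold T3
  have h : c3 (π a) (π b) (π c) • π • q = π • q ↔ c3 a b c • q = q := by
    rw [← c3_conj, mul_smul, mul_smul, inv_smul_smul]
    exact (MulAction.injective π).eq_iff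
  rw [h]
  simp

omit [Fintype α] in
theorem Rl_smul (π : Perm α) (q : X) (a b : α) : Rl (π • q) (π a) (π b) ↔ Rl q a b := by
  unfold Rl
  constructor
  · rintro (h | ⟨c, h⟩)
    · exact Or.inl (π.injective h)
    · refine Or.inr ⟨π⁻¹ c, ?_⟩
      rw [← T3_smul π]
      simpa using h
  · rintro (h | ⟨c, h⟩)
    · exact Or.inl (by rw [h])
    · exact Or.inr ⟨π c, (T3_smul π q a b c).2 h⟩

open scoped Classical in
/-- the canonical support of `q`: the points outside the large class -/
noncomputable def sup (q : X) : Finset α :=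
  univ.filter fun a => 2 * (univ.filter fun b => Rl q a b).card ≤ Fintype.card α

theorem mem_sup_smul (π : Perm α) (q : X) (a : α) : π a ∈ sup (π • q) ↔ a ∈ (sup q : Finset α) := by
  classical
  unfold sup
  simp only [mem_filter, mem_univ, true_and]
  have : (univ.filter fun b => Rl (π • q) (π a) b).card = (univ.filter fun b => Rl q a b).card := by
    have h : (univ.filter fun b => Rl (π • q) (π a) b)
        = (univ.filter fun b => Rl q a b).map π.toEmbedding := by
      ext b
      simp only [mem_filter, mem_univ, true_and, mem_map, Equiv.coe_toEmbedding]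
      constructor
      · intro h
        refine ⟨π⁻¹ b, ?_, by simp⟩
        rw [← Rl_smul π]
        simpa using h
      · rintro ⟨c, h, rfl⟩
        exact (Rl_smul π q a c).2 h
    rw [h, card_map]
  rw [this]

theorem sup_smul (π : Perm α) (q : X) : sup (π • q) = (sup q : Finset α).map π.toEmbedding := by
  ext b
  have := mem_sup_smul π q (π⁻¹ b)
  rw [p_apply_inv] at this
  rw [this, mem_map]
  constructor
  · intro h
    exact ⟨π⁻¹ b, h, by simp⟩
  · rintro ⟨c, h, rfl⟩
    simpa using h

/-- `S` is an alternating support of `q` -/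
def IsSup (S : Finset α) (q : X) : Prop :=
  ∀ π : Perm α, Perm.sign π = 1 → (∀ x ∈ S, π x = x) → π • q = q

theorem Rl_of_notMem {S : Finset α} {q : X} (hS : IsSup S q) (hc : S.card + 3 ≤ Fintype.card α)
    {a b : α} (ha : a ∉ S) (hb : b ∉ S) : Rl q a b := by
  by_cases hab : a = b
  · exact Or.inl hab
  obtain ⟨c, hc'⟩ : ∃ c, c ∉ insert a (insert b S) := by
    by_contra h
    push Not at h
    have h1 : (univ : Finset α) ⊆ insert a (insert b S) := fun x _ => h x
    have h2 := card_le_card h1
    rw [card_univ] at h2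
    have h3 := card_insert_le a (insert b S)
    have h4 := card_insert_le b S
    omega
  simp only [mem_insert, not_or] at hc'
  obtain ⟨hca, hcb, hcS⟩ := hc'
  refine Or.inr ⟨c, hab, Ne.symm hcb, Ne.symm hca, hS _ ?_ ?_⟩
  · unfold c3
    rw [map_mul, Perm.sign_swap hab, Perm.sign_swap (Ne.symm hcb)]
    rfl
  · intro x hx
    apply c3_apply_of_ne
    · rintro rfl; exact ha hx
    · rintro rfl; exact hb hx
    · rintro rfl; exact hcS hx

theorem sup_subset {S : Finset α} {q : X} (hS : IsSup S q)
    (hc : 2 * S.card + 3 ≤ Fintype.card α) : sup q ⊆ S := by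
  classical
  intro a ha
  by_contra haS
  unfold sup at ha
  simp only [mem_filter, mem_univ, true_and] at ha
  have h1 : Sᶜ ⊆ univ.filter fun b => Rl q a b := by
    intro b hb
    simp only [mem_filter, mem_univ, true_and]
    exact Rl_of_notMem hS (by omega) haS (mem_compl.1 hb)
  have h2 := card_le_card h1
  rw [card_compl] at h2
  omega

theorem isSup_sup {S : Finset α} {q : X} (hS : IsSup S q)
    (hc : 2 * S.card + 3 ≤ Fintype.card α) : IsSup (sup q : Finset α) q := by
  classical
  have key : ∀ a ∉ (sup q : Finset α), ∃ b ∉ S, Rl q a b := by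
    intro a ha
    unfold sup at ha
    simp only [mem_filter, mem_univ, true_and, not_le] at ha
    by_contra h
    push Not at h
    have h1 : (univ.filter fun b => Rl q a b) ⊆ S := by
      intro b hb
      simp only [mem_filter, mem_univ, true_and] at hb
      by_contra hbS
      exact h b hbS hb
    have h2 := card_le_card h1
    omega
  intro π hπ hfix
  apply smul_eq_of_class ((sup q : Finset α)ᶜ) _ π hπ
  · intro x hx
    exact hfix x (by simpa using hx)
  · intro a ha b hb
    obtain ⟨a', ha', h1⟩ := key a (mem_compl.1 ha)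
    obtain ⟨b', hb', h2⟩ := key b (mem_compl.1 hb)
    exact (h1.trans (Rl_of_notMem hS (by omega) ha' hb')).trans h2.symm

/-- In a small set on which the permutations of `α` act, all canonical supports are small. -/
theorem small_sup [Fintype X] {k : ℕ} (hk : 1 ≤ k)
    (hX : Fintype.card X ^ 2 ≤ Fintype.card α ^ k)
    (hK : 16 * (k + 1) * (k + 1) * (Nat.log 2 (Fintype.card α) + 1) ≤ Fintype.card α) (q : X) :
    (sup q : Finset α).card ≤ k ∧ IsSup (sup q : Finset α) q := by
  set K := Fintype.card α with hKdef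
  set l := Nat.log 2 K + 1 with hl
  have hl1 : 1 ≤ l := by omega
  have hK2 : K < 2 ^ l := Nat.lt_pow_succ_log_self (by norm_num) K
  have hXpos : 0 < Fintype.card X := Fintype.card_pos_iff.2 ⟨q⟩
  have hX1 : Fintype.card X < 2 ^ (k * l) := by
    calc Fintype.card X ≤ Fintype.card X ^ 2 := Nat.le_self_pow (by norm_num) _
      _ ≤ K ^ k := hX
      _ < (2 ^ l) ^ k := Nat.pow_lt_pow_left hK2 (by omega)
      _ = 2 ^ (k * l) := by rw [← pow_mul, mul_comm]
  have hfac : ∀ n, 2 ^ n ≤ (n + 1).factorial := by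
    intro n
    induction n with
    | zero => decide
    | succ n ih =>
      rw [Nat.factorial_succ, pow_succ]
      calc 2 ^ n * 2 ≤ (n + 1).factorial * 2 := Nat.mul_le_mul_right _ ih
        _ ≤ (n + 1 + 1) * (n + 1).factorial := by
          rw [mul_comm]; exact Nat.mul_le_mul_right _ (by omega)
  have hf : Fintype.card X < (k * l + 1).factorial := lt_of_lt_of_le hX1 (hfac _)
  have hkk : 16 * (k + 1) * (k + 1) ≤ K := by
    calc 16 * (k + 1) * (k + 1) ≤ 16 * (k + 1) * (k + 1) * l := Nat.le_mul_of_pos_right _ hl1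
      _ ≤ K := hK
  have hr' : k + 1 ≤ K := by nlinarith
  have hr : 2 * (k * l) * (k + 1) ≤ K := by
    refine le_trans ?_ hK
    calc 2 * (k * l) * (k + 1) = 2 * k * (k + 1) * l := by ring
      _ ≤ 16 * (k + 1) * (k + 1) * l := by
        apply Nat.mul_le_mul_right
        nlinarith
  have hQ : 2 * (k * l) * Fintype.card X < K.choose (k + 1) := by
    have h2 : (K + 1 - (k + 1)) ^ (k + 1) ≤ K.descFactorial (k + 1) :=
      Nat.pow_sub_le_descFactorial _ _
    have h3 : K.descFactorial (k + 1) = (k + 1).factorial * K.choose (k + 1) :=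
      Nat.descFactorial_eq_factorial_mul_choose _ _
    have h4 : (k + 1).factorial ≤ (k + 1) ^ (k + 1) := Nat.factorial_le_pow _
    have h5 : K + 1 - (k + 1) = K - k := by omega
    rw [h5] at h2
    have h6 : (K - k) ^ (k + 1) ≤ K.choose (k + 1) * (k + 1) ^ (k + 1) := by
      calc (K - k) ^ (k + 1) ≤ (k + 1).factorial * K.choose (k + 1) := by rw [← h3]; exact h2
        _ ≤ (k + 1) ^ (k + 1) * K.choose (k + 1) := Nat.mul_le_mul_right _ h4
        _ = _ := by ring
    have h7 : 4 * l * K * (k + 1) ^ 2 ≤ (K - k) ^ 2 := by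
      have e1 : K ≤ 2 * (K - k) := by
        have : 2 * k ≤ K := by nlinarith
        omega
      have e2 : K * K ≤ 4 * (K - k) ^ 2 := by
        calc K * K ≤ (2 * (K - k)) * (2 * (K - k)) := Nat.mul_le_mul e1 e1
          _ = 4 * (K - k) ^ 2 := by ring
      have e3 : K * (16 * (k + 1) * (k + 1) * l) ≤ K * K := Nat.mul_le_mul_left _ hK
      have e4 : 4 * (4 * l * K * (k + 1) ^ 2) = K * (16 * (k + 1) * (k + 1) * l) := by ring
      omega
    have h8 : (4 * l * K) ^ (k + 1) ≤ K.choose (k + 1) ^ 2 := by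
      have e1 : (4 * l * K) ^ (k + 1) * ((k + 1) ^ (k + 1)) ^ 2
          ≤ K.choose (k + 1) ^ 2 * ((k + 1) ^ (k + 1)) ^ 2 := by
        calc (4 * l * K) ^ (k + 1) * ((k + 1) ^ (k + 1)) ^ 2
            = (4 * l * K * (k + 1) ^ 2) ^ (k + 1) := by
              rw [mul_pow (4 * l * K) ((k + 1) ^ 2) (k + 1), ← pow_mul, ← pow_mul,
                mul_comm (k + 1) 2]
          _ ≤ ((K - k) ^ 2) ^ (k + 1) := Nat.pow_le_pow_left h7 _
          _ = ((K - k) ^ (k + 1)) ^ 2 := by rw [← pow_mul, ← pow_mul, mul_comm]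
          _ ≤ (K.choose (k + 1) * (k + 1) ^ (k + 1)) ^ 2 := Nat.pow_le_pow_left h6 2
          _ = _ := by rw [mul_pow]
      exact Nat.le_of_mul_le_mul_right e1 (by positivity)
    have h9 : (2 * (k * l) * Fintype.card X) ^ 2 < K.choose (k + 1) ^ 2 := by
      refine lt_of_lt_of_le ?_ h8
      have hKpos : 0 < K := by omega
      calc (2 * (k * l) * Fintype.card X) ^ 2 = 4 * k ^ 2 * l ^ 2 * Fintype.card X ^ 2 := by ring
        _ ≤ 4 * k ^ 2 * l ^ 2 * K ^ k := Nat.mul_le_mul_left _ hX
        _ < (4 * l) ^ 2 * (K * K ^ k) := by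
          have e1 : 4 * k ^ 2 < 16 * K := by nlinarith
          have e2 : 0 < l ^ 2 * K ^ k := by positivity
          calc 4 * k ^ 2 * l ^ 2 * K ^ k = 4 * k ^ 2 * (l ^ 2 * K ^ k) := by ring
            _ < 16 * K * (l ^ 2 * K ^ k) := Nat.mul_lt_mul_of_pos_right e1 e2
            _ = (4 * l) ^ 2 * (K * K ^ k) := by ring
        _ ≤ (4 * l) ^ (k + 1) * K ^ (k + 1) := by
          rw [pow_succ' K k]
          apply Nat.mul_le_mul_right
          exact Nat.pow_le_pow_right (by omega) (by omega)
        _ = (4 * l * K) ^ (k + 1) := by rw [← mul_pow]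
    exact lt_of_pow_lt_pow_left₀ 2 (Nat.zero_le _) h9
  obtain ⟨S, hS1, hS2⟩ := exists_support q hf hr hr' (by positivity) hQ
  have hc : 2 * S.card + 3 ≤ Fintype.card α := by
    rw [← hKdef]; nlinarith
  exact ⟨(card_le_card (sup_subset hS2 hc)).trans (by omega), isSup_sup hS2 hc⟩

end H688R2.Sym
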