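import Pool.Agent.H688R2.Sym.Maj

/-!
# Symmetric circuits do not even correlate with majority
-/

namespace H688R2.Sym

open Equiv Finset

theorem choose_le_center (K w : ℕ) : K.choose w ≤ K.choose (K / 2) := Nat.choose_le_middle w K

theorem choose_anti {K v w : ℕ} (h1 : K ≤ 2 * v) (h2 : v ≤ w) (h3 : w ≤ K) :
    K.choose w ≤ K.choose v := by
  rw [← Nat.choose_symm h3, ← Nat.choose_symm (h2.trans h3)]
  exact H534R2.SymSw.choose_le_of_le_half (by omega) (by omega)

/-- A periodic function agrees with the threshold at `K / 2` on hardly more than one half. -/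
theorem periodic_agree (K P : ℕ) (hP : 0 < P) (h : ℕ → Prop) [DecidablePred h] :
    2 * ∑ w ∈ (range (K + 1)).filter (fun w => h (w % P) ↔ K ≤ 2 * w), K.choose w
      ≤ 2 ^ K + (2 * P + 1) * K.choose (K / 2) := by
  classical
  set B := K.choose (K / 2) with hB
  let f : ℕ → ℕ := fun w => w + P * ((K - 2 * w) / P)
  -- the lower part
  set W := (range (K + 1)).filter (fun w => 2 * w < K ∧ ¬ h (w % P)) with hW
  set W1 := W.filter (fun w => K ≤ 2 * f w) with hW1
  set W2 := W.filter (fun w => ¬ K ≤ 2 * f w) with hW2
  set V := (range (K + 1)).filter (fun w => K ≤ 2 * w ∧ ¬ h (w % P)) with hV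
  set U := (range (K + 1)).filter (fun w => K ≤ 2 * w ∧ h (w % P)) with hU
  have hfle : ∀ w, 2 * w < K → f w ≤ K - w := by
    intro w hw
    have := Nat.mul_div_le (K - 2 * w) P
    show w + P * ((K - 2 * w) / P) ≤ K - w
    omega
  have hfgt : ∀ w, 2 * w < K → K - w < f w + P := by
    intro w hw
    have h1 := Nat.div_add_mod (K - 2 * w) P
    have h2 := Nat.mod_lt (K - 2 * w) hP
    show K - w < w + P * ((K - 2 * w) / P) + P
    omega
  have hfmod : ∀ w, f w % P = w % P := by
    intro w
    show (w + P * ((K - 2 * w) / P)) % P = w % P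
    exact Nat.add_mul_mod_self_left _ _ _
  have hfinj : ∀ w ∈ W1, ∀ w' ∈ W1, f w = f w' → w = w' := by
    have key : ∀ w w', 2 * w < K → 2 * w' < K → w < w' → f w ≠ f w' := by
      intro w w' hw hw' hlt he
      have hm : w % P = w' % P := by rw [← hfmod w, ← hfmod w', he]
      have hd : P ∣ w' - w := (Nat.modEq_iff_dvd' hlt.le).1 hm
      have := Nat.le_of_dvd (by omega) hd
      have h1 := hfle w' hw'
      have h2 := hfgt w hw
      omega
    intro w hw w' hw' he
    rw [hW1, mem_filter, hW, mem_filter] at hw hw'
    rcases lt_trichotomy w w' with hlt | heq | hgt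
    · exact absurd he (key w w' hw.1.2.1 hw'.1.2.1 hlt)
    · exact heq
    · exact absurd he.symm (key w' w hw'.1.2.1 hw.1.2.1 hgt)
  have hs1 : ∑ w ∈ W1, K.choose w ≤ ∑ w ∈ V, K.choose w := by
    calc ∑ w ∈ W1, K.choose w ≤ ∑ w ∈ W1, K.choose (f w) := by
          apply sum_le_sum
          intro w hw
          rw [hW1, mem_filter, hW, mem_filter] at hw
          have h1 := hfle w hw.1.2.1
          rw [← Nat.choose_symm (show w ≤ K by omega)]
          exact choose_anti hw.2 h1 (by omega)
      _ = ∑ v ∈ W1.image f, K.choose v := by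
          rw [sum_image]
          intro w hw w' hw' he
          exact hfinj w hw w' hw' he
      _ ≤ ∑ w ∈ V, K.choose w := by
          apply sum_le_sum_of_subset
          intro v hv
          rw [mem_image] at hv
          obtain ⟨w, hw, rfl⟩ := hv
          rw [hW1, mem_filter, hW, mem_filter] at hw
          have h1 := hfle w hw.1.2.1
          rw [hV, mem_filter, mem_range]
          refine ⟨by omega, hw.2, ?_⟩
          rw [hfmod]; exact hw.1.2.2
  have hs2 : ∑ w ∈ W2, K.choose w ≤ P * B := by
    have hc : W2.card ≤ P := by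
      have hsub : W2 ⊆ Ico ((K + 1) / 2 - P) ((K + 1) / 2) := by
        intro w hw
        rw [hW2, mem_filter, hW, mem_filter] at hw
        have h2 := hfgt w hw.1.2.1
        have h3 := hw.2
        have h4 := hw.1.2.1
        rw [mem_Ico]
        omega
      have := card_le_card hsub
      rw [Nat.card_Ico] at this
      omega
    calc ∑ w ∈ W2, K.choose w ≤ ∑ _w ∈ W2, B := sum_le_sum fun w _ => choose_le_center K w
      _ = W2.card * B := by rw [sum_const, smul_eq_mul]
      _ ≤ P * B := Nat.mul_le_mul_right _ hc
  -- assemble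
  have hsplit : ∑ w ∈ (range (K + 1)).filter (fun w => h (w % P) ↔ K ≤ 2 * w), K.choose w
      = ∑ w ∈ U, K.choose w + (∑ w ∈ W1, K.choose w + ∑ w ∈ W2, K.choose w) := by
    rw [hW1, hW2, sum_filter_add_sum_filter_not, ← sum_union]
    · apply sum_congr _ (fun _ _ => rfl)
      ext w
      rw [hU, hW]
      simp only [mem_union, mem_filter]
      constructor
      · rintro ⟨h1, h2⟩
        by_cases h3 : K ≤ 2 * w
        · exact Or.inl ⟨h1, h3, h2.2 h3⟩
        · exact Or.inr ⟨h1, by omega, fun h4 => h3 (h2.1 h4)⟩
      · rintro (⟨h1, h2, h3⟩ | ⟨h1, h2, h3⟩)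
        · exact ⟨h1, fun _ => h2, fun _ => h3⟩
        · exact ⟨h1, fun h4 => absurd h4 h3, fun h4 => by omega⟩
    · rw [disjoint_left]
      intro w hw hw'
      rw [hU, mem_filter] at hw
      rw [hW, mem_filter] at hw'
      omega
  have hUV : ∑ w ∈ U, K.choose w + ∑ w ∈ V, K.choose w
      = ∑ w ∈ (range (K + 1)).filter (fun w => K ≤ 2 * w), K.choose w := by
    rw [hU, hV, ← filter_filter, ← filter_filter, sum_filter_add_sum_filter_not]
  have hhalf : 2 * ∑ w ∈ (range (K + 1)).filter (fun w => K ≤ 2 * w), K.choose w
      ≤ 2 ^ K + B := by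
    have h1 : ∑ w ∈ (range (K + 1)).filter (fun w => K ≤ 2 * w), K.choose w
        + ∑ w ∈ (range (K + 1)).filter (fun w => ¬ K ≤ 2 * w), K.choose w = 2 ^ K := by
      rw [sum_filter_add_sum_filter_not, Nat.sum_range_choose]
    have h2 : ∑ w ∈ (range (K + 1)).filter (fun w => K < 2 * w), K.choose w
        = ∑ w ∈ (range (K + 1)).filter (fun w => ¬ K ≤ 2 * w), K.choose w := by
      refine Finset.sum_bij' (fun w _ => K - w) (fun w _ => K - w) ?_ ?_ ?_ ?_ ?_
      · intro w hw
        rw [mem_filter, mem_range] at hw ⊢
        omega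
      · intro w hw
        rw [mem_filter, mem_range] at hw ⊢
        omega
      · intro w hw
        rw [mem_filter, mem_range] at hw
        omega
      · intro w hw
        rw [mem_filter, mem_range] at hw
        omega
      · intro w hw
        rw [mem_filter, mem_range] at hw
        exact (Nat.choose_symm (by omega)).symm
    have h3 : ∑ w ∈ (range (K + 1)).filter (fun w => K ≤ 2 * w), K.choose w
        ≤ ∑ w ∈ (range (K + 1)).filter (fun w => K < 2 * w), K.choose w + B := by
      have hsub : (range (K + 1)).filter (fun w => K ≤ 2 * w)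
          ⊆ (range (K + 1)).filter (fun w => K < 2 * w) ∪ {K / 2} := by
        intro w hw
        rw [mem_filter, mem_range] at hw
        rw [mem_union, mem_filter, mem_range, mem_singleton]
        omega
      refine (sum_le_sum_of_subset hsub).trans ?_
      have h4 := sum_union_inter (s₁ := (range (K + 1)).filter (fun w => K < 2 * w))
        (s₂ := {K / 2}) (f := fun w => K.choose w)
      rw [sum_singleton] at h4
      omega
    omega
  rw [hsplit]
  have : (2 * P + 1) * B = 2 * (P * B) + B := by ring
  omega

theorem card_by_size {α : Type*} [Fintype α] [DecidableEq α] (p : ℕ → Prop) [DecidablePred p] :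
    ((univ : Finset (Finset α)).filter fun y => p y.card).card
      = ∑ w ∈ (range (Fintype.card α + 1)).filter p, (Fintype.card α).choose w := by
  have h := sum_powerset_apply_card (fun w => if p w then 1 else 0) (x := (univ : Finset α))
  rw [powerset_univ, card_univ] at h
  rw [card_filter, h, sum_filter]
  apply sum_congr rfl
  intro w _
  split_ifs <;> simp

section main

variable {α : Type*} [DecidableEq α] [Fintype α] {Q : Type*} [Fintype Q]
  [MulAction (Perm α) Q]

open scoped Classical in
/-- **Average case.** -/
theorem majority_agree (C : Circuit α Q) (hC : C.Invariant α) {m t k : ℕ} (hm : m ≠ 0)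
    (hk1 : 1 ≤ k) (hG : C.ModGates m t) (hQ : Fintype.card Q ^ 2 ≤ Fintype.card α ^ k)
    (hcon : 16 * (k + 1) * (k + 1) * (Nat.log 2 (Fintype.card α) + 1) ≤ Fintype.card α) :
    2 * ((univ : Finset (Finset α)).filter fun y =>
        (C.val (fun a => a ∈ y) C.out ↔ Majority (fun a => a ∈ y))).card
      ≤ 2 ^ Fintype.card α
        + (2 * m * k ^ m.primeFactors.card + 1) * (Fintype.card α).choose (Fintype.card α / 2)
        + 4 * ∑ w ∈ range (2 * k + t + 1), (Fintype.card α).choose w := by
  set K := Fintype.card α with hKdef
  set P := per m k with hPdef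
  set L := 2 * k + t + 1 with hL
  have hP : P ≤ m * k ^ m.primeFactors.card := per_le m k (by omega)
  have hPpos : 0 < P := per_pos m k hm
  have hk : ∀ q : Q, (sup q : Finset α).card ≤ k ∧ IsSup (sup q : Finset α) q :=
    fun q => small_sup hk1 hQ hcon q
  have hK9 : 2 * k + 3 ≤ K := by
    have h1 : 16 * (k + 1) * (k + 1) ≤ K := by
      refine le_trans (Nat.le_mul_of_pos_right _ ?_) hcon
      omega
    nlinarith
  have hout : (sup C.out : Finset α) = ∅ := by
    have h1 : IsSup (∅ : Finset α) C.out := fun h _ _ => hC.out h
    have h2 := sup_subset h1 (by simp; omega)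
    exact subset_empty.1 h2
  have hxi : ∀ q i, C.input q = some i → ∀ y y' : Finset α,
      (∀ a ∈ (sup q : Finset α), a ∈ y ↔ a ∈ y') → (i ∈ y ↔ i ∈ y') := by
    intro q i hi y y' hag
    apply hag
    by_contra hiq
    -- move `i` by a three-cycle outside the support
    obtain ⟨b, hb⟩ : ∃ b, b ∉ insert i (sup q : Finset α) := by
      by_contra h
      push Not at h
      have h1 := card_le_card (fun x _ => h x : (univ : Finset α) ⊆ _)
      rw [card_univ] at h1
      have h2 := card_insert_le i (sup q : Finset α)
      have h3 := (hk q).1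
      omega
    obtain ⟨c, hc⟩ : ∃ c, c ∉ insert b (insert i (sup q : Finset α)) := by
      by_contra h
      push Not at h
      have h1 := card_le_card (fun x _ => h x : (univ : Finset α) ⊆ _)
      rw [card_univ] at h1
      have h2 := card_insert_le i (sup q : Finset α)
      have h4 := card_insert_le b (insert i (sup q : Finset α))
      have h3 := (hk q).1
      omega
    simp only [mem_insert, not_or] at hb hc
    have hib : i ≠ b := Ne.symm hb.1
    have hbc : b ≠ c := Ne.symm hc.1
    have hic : i ≠ c := Ne.symm hc.2.1
    have hfix := (hk q).2 (H534R2.SymSw.c3 i b c) (by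
      unfold H534R2.SymSw.c3
      rw [map_mul, Perm.sign_swap hib, Perm.sign_swap hbc]; rfl) (by
      intro x hx
      apply H534R2.SymSw.c3_apply_of_ne
      · rintro rfl; exact hiq hx
      · rintro rfl; exact hb.2 hx
      · rintro rfl; exact hc.2.2 hx)
    have h2 := hC.input (H534R2.SymSw.c3 i b c) q
    rw [hfix, hi] at h2
    have h3 : i = H534R2.SymSw.c3 i b c i := by
      have := Option.some.inj h2
      exact this
    rw [H534R2.SymSw.c3_apply1 hib hic] at h3
    exact hib h3
  have hper : ∀ y y' : Finset α, Mid L y → Mid L y' → y.card ≡ y'.card [MOD P] →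
      (C.val (fun a => a ∈ y) C.out ↔ C.val (fun a => a ∈ y') C.out) := by
    intro y y' hy hy' hyy
    exact val_periodic C hC hm hG hk (fun y a => a ∈ y) (by
      intro h _ y i
      show h i ∈ y.map h.toEmbedding ↔ i ∈ y
      simp) hxi _ C.out rfl y y' hy hy' hyy (by rw [hout]; simp)
  let h : ℕ → Prop := fun r => ∃ y : Finset α, Mid L y ∧ y.card % P = r ∧
    C.val (fun a => a ∈ y) C.out
  have hh : ∀ y : Finset α, Mid L y → (C.val (fun a => a ∈ y) C.out ↔ h (y.card % P)) := by
    intro y hy
    constructor
    · intro hv; exact ⟨y, hy, rfl, hv⟩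
    · rintro ⟨y', hy', he, hv⟩
      exact (hper y' y hy' hy he).1 hv
  have hmaj : ∀ y : Finset α, Majority (fun a => a ∈ y) ↔ K ≤ 2 * y.card :=
    fun y => majority_finset y
  have hsub : ((univ : Finset (Finset α)).filter fun y =>
        (C.val (fun a => a ∈ y) C.out ↔ Majority (fun a => a ∈ y)))
      ⊆ ((univ : Finset (Finset α)).filter fun y => (h (y.card % P) ↔ K ≤ 2 * y.card))
        ∪ (((univ : Finset (Finset α)).filter fun y => y.card < L)
        ∪ ((univ : Finset (Finset α)).filter fun y => K < y.card + L)) := by
    intro y hy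
    simp only [mem_filter, mem_univ, true_and, mem_union] at hy ⊢
    by_cases hmid : Mid L y
    · left
      rw [← hh y hmid, ← hmaj y]
      exact hy
    · right
      unfold Mid at hmid
      omega
  have h1 := card_le_card hsub
  have h2 := card_union_le ((univ : Finset (Finset α)).filter
    fun y => (h (y.card % P) ↔ K ≤ 2 * y.card))
    (((univ : Finset (Finset α)).filter fun y => y.card < L)
        ∪ ((univ : Finset (Finset α)).filter fun y => K < y.card + L))
  have h3 := card_union_le ((univ : Finset (Finset α)).filter fun y => y.card < L)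
    ((univ : Finset (Finset α)).filter fun y => K < y.card + L)
  have h4 := card_by_size (α := α) (fun w => (h (w % P) ↔ K ≤ 2 * w))
  have h5 := card_by_size (α := α) (fun w => w < L)
  have h6 := card_by_size (α := α) (fun w => K < w + L)
  have h7 := periodic_agree K P hPpos h
  have h8 : ∑ w ∈ (range (K + 1)).filter (fun w => w < L), K.choose w
      ≤ ∑ w ∈ range L, K.choose w := by
    apply sum_le_sum_of_subset
    intro w hw
    rw [mem_filter] at hw
    exact mem_range.2 hw.2
  have h9 : ∑ w ∈ (range (K + 1)).filter (fun w => K < w + L), K.choose w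
      ≤ ∑ w ∈ range L, K.choose w := by
    calc _ = ∑ w ∈ ((range (K + 1)).filter (fun w => K < w + L)).image (fun w => K - w),
          K.choose w := by
          rw [sum_image]
          · apply sum_congr rfl
            intro w hw
            rw [mem_filter, mem_range] at hw
            exact (Nat.choose_symm (by omega)).symm
          · intro a ha b hb he
            simp only [coe_filter, mem_range, Set.mem_ofPred_eq] at ha hb
            simp only at he
            omega
      _ ≤ _ := by
          apply sum_le_sum_of_subset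
          intro w hw
          rw [mem_image] at hw
          obtain ⟨v, hv, rfl⟩ := hw
          rw [mem_filter, mem_range] at hv
          rw [mem_range]
          omega
  have h10 : (2 * P + 1) * K.choose (K / 2)
      ≤ (2 * m * k ^ m.primeFactors.card + 1) * K.choose (K / 2) := by
    apply Nat.mul_le_mul_right
    have : 2 * m * k ^ m.primeFactors.card = 2 * (m * k ^ m.primeFactors.card) := by ring
    omega
  rw [← hKdef] at h4 h5 h6
  omega

end main

end H688R2.Sym
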