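import Pool.Agent.H688R2.Sym.Upper

/-!
# Correctness of the symmetrised circuit
-/

namespace H688R2.Sym

open Equiv Finset UG

section gates

variable {I Q : Type*} [Fintype Q]

theorem and_gate (D : Circuit I Q) (x : I → Prop) (q : Q) (hi : D.input q = none)
    (hg : D.gate q = fun _ b => b = 0) :
    D.val x q ↔ ∀ q', D.wires q q' ≠ 0 → D.val x q' := by
  classical
  rw [val_gate D x q hi, hg]
  show _ = 0 ↔ _
  rw [sum_eq_zero_iff]
  constructor
  · intro h q' hw
    by_contra hv
    have := h q' (mem_univ _)
    rw [if_pos hv] at this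
    exact hw this
  · intro h q' _
    by_cases hv : D.val x q'
    · rw [if_neg (not_not.2 hv)]
    · rw [if_pos hv]
      by_contra hw
      exact hv (h q' hw)

theorem or_gate (D : Circuit I Q) (x : I → Prop) (q : Q) (hi : D.input q = none)
    (hg : D.gate q = fun a _ => a ≠ 0) :
    D.val x q ↔ ∃ q', D.wires q q' ≠ 0 ∧ D.val x q' := by
  classical
  rw [val_gate D x q hi, hg]
  show _ ≠ 0 ↔ _
  rw [ne_eq, sum_eq_zero_iff]
  constructor
  · intro h
    push Not at h
    obtain ⟨q', -, hq'⟩ := h
    refine ⟨q', ?_, ?_⟩
    · intro h0; apply hq'; rw [h0]; simp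
    · by_contra hv; apply hq'; rw [if_neg hv]
  · rintro ⟨q', hw, hv⟩ h
    have := h q' (mem_univ _)
    rw [if_pos hv] at this
    exact hw this

end gates

section correct

variable {α M Q : Type*} [Fintype α] [Fintype Q] {m k K : ℕ} (C : Circuit (α ⊕ M) Q)
  (y : Fin (K + 1) → Finset α) (x : α ⊕ M → Prop)

open scoped Classical in
/-- the true inputs on the left side -/
noncomputable def left (x : α ⊕ M → Prop) : Finset α := univ.filter fun a => x (Sum.inl a)

theorem v_inp (a : α) : (symm C m k K y).val x (inp a) ↔ x (Sum.inl a) :=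
  val_input _ _ _ _ rfl

theorem v_mon (T : {T : Finset α // T.card ≤ k}) :
    (symm C m k K y).val x (mon T) ↔ T.1 ⊆ left x := by
  classical
  rw [and_gate _ _ _ rfl rfl]
  constructor
  · intro h a ha
    have := h (inp a) (by
      show (if a ∈ T.1 then 1 else 0) ≠ 0
      rw [if_pos ha]; exact one_ne_zero)
    rw [v_inp] at this
    simp [left, this]
  · intro h q' hw
    rcases q' with a | _ | _ | _ | ⟨_, _⟩ | _ | _
    · rw [v_inp]
      have ha : a ∈ T.1 := by
        by_contra ha
        apply hw
        show (if a ∈ T.1 then 1 else 0) = 0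
        rw [if_neg ha]
      have := h ha
      simpa [left] using this
    all_goals exact absurd rfl hw

theorem v_dig (p : Fin (m + 1)) (e : Fin (k + 1)) (c : Fin (m + 1)) (hp : p.1 ∣ m) :
    (symm C m k K y).val x (dig p e c) ↔ (left x).card.choose e.1 % p.1 = c.1 := by
  classical
  rw [val_gate _ _ _ (by rfl)]
  show (if p.1 ∣ m then _ % p.1 = c.1 else True) ↔ _
  rw [if_pos hp]
  have hsum : (∑ q', if (symm C m k K y).val x q' then (symm C m k K y).wires (dig p e c) q'
      else 0) = (left x).card.choose e.1 := by
    have h1 : (∑ q', if (symm C m k K y).val x q' then (symm C m k K y).wires (dig p e c) q'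
        else 0) = ∑ T : {T : Finset α // T.card ≤ k},
          if T.1 ⊆ left x then (if T.1.card = e.1 then 1 else 0) else 0 := by
      have e1 : (∑ T : {T : Finset α // T.card ≤ k},
          if T.1 ⊆ left x then (if T.1.card = e.1 then 1 else 0) else 0)
          = ∑ q' ∈ (univ : Finset {T : Finset α // T.card ≤ k}).map
            ⟨fun T => (mon T : UG α Q m k K), fun a b h => by injection h⟩,
            if (symm C m k K y).val x q' then (symm C m k K y).wires (dig p e c) q' else 0 := by
        rw [sum_map]
        apply sum_congr rfl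
        intro T _
        have hv := v_mon (m := m) (k := k) C y x T
        show _ = if (symm C m k K y).val x (mon T) then (if T.1.card = e.1 then 1 else 0) else 0
        by_cases h : T.1 ⊆ left x
        · rw [if_pos h, if_pos (hv.2 h)]
        · rw [if_neg h, if_neg (mt hv.1 h)]
      rw [e1]
      symm
      apply sum_subset (subset_univ _)
      intro q' _ hq'
      rcases q' with _ | T | _ | _ | ⟨_, _⟩ | _ | _
      · split_ifs <;> rfl
      · exact absurd (mem_map.2 ⟨T, mem_univ _, rfl⟩) hq'
      all_goals split_ifs <;> rfl
    rw [h1]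
    have h2 : (∑ T : {T : Finset α // T.card ≤ k},
          if T.1 ⊆ left x then (if T.1.card = e.1 then 1 else 0) else 0)
        = ∑ T ∈ (univ : Finset (Finset α)).filter (fun T => T.card ≤ k),
          if T ⊆ left x then (if T.card = e.1 then 1 else 0) else 0 := by
      symm
      apply Finset.sum_subtype
      intro T; simp
    rw [h2, ← card_powersetCard, card_eq_sum_ones, ← sum_filter, ← sum_filter]
    apply sum_congr _ (fun _ _ => rfl)
    ext T
    simp only [mem_filter, mem_univ, true_and, mem_powersetCard]
    constructor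
    · rintro ⟨⟨-, h⟩, h'⟩; exact ⟨h, h'⟩
    · rintro ⟨h, h'⟩
      have := e.2
      exact ⟨⟨by omega, h⟩, h'⟩
  rw [hsum]

theorem v_eqn (hk : 1 ≤ k) (hm : m ≠ 0) (hcard : Fintype.card α = K)
    (hK : K < (k + 1) ^ m.primeFactors.card) (j : Fin (K + 1)) :
    (symm C m k K y).val x (eqn j) ↔ (left x).card = j.1 := by
  classical
  have hleft : (left x).card ≤ K := by rw [← hcard]; exact card_le_univ _
  rw [and_gate _ _ _ rfl rfl]
  constructor
  · intro h
    have hj := j.2
    refine eq_of_choose (m := m) hk (by omega) (by omega) ?_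
    intro p f hp hpf
    have hpp := Nat.prime_of_mem_primeFactors hp
    have hpm : p ≤ m := Nat.le_of_dvd (Nat.pos_of_ne_zero hm) (Nat.dvd_of_mem_primeFactors hp)
    have hmod : j.1.choose (p ^ f) % p < p := Nat.mod_lt _ hpp.pos
    have := h (dig ⟨p, by omega⟩ ⟨p ^ f, by omega⟩ ⟨j.1.choose (p ^ f) % p, by omega⟩) (by
      show (if p ∈ m.primeFactors ∧ (∃ f', p ^ f = p ^ f') ∧
        j.1.choose (p ^ f) % p = j.1.choose (p ^ f) % p then 1 else 0) ≠ 0
      rw [if_pos ⟨hp, ⟨f, rfl⟩, rfl⟩]
      exact one_ne_zero)
    rw [v_dig _ _ _ _ _ _ (Nat.dvd_of_mem_primeFactors hp)] at this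
    exact this
  · intro h q' hw
    rcases q' with _ | _ | ⟨p, e, c⟩ | _ | ⟨_, _⟩ | _ | _
    · exact absurd rfl hw
    · exact absurd rfl hw
    · have hc : p.1 ∈ m.primeFactors ∧ (∃ f, e.1 = p.1 ^ f) ∧ j.1.choose e.1 % p.1 = c.1 := by
        by_contra hc
        apply hw
        show (if p.1 ∈ m.primeFactors ∧ (∃ f, e.1 = p.1 ^ f) ∧
          j.1.choose e.1 % p.1 = c.1 then 1 else 0) = 0
        rw [if_neg hc]
      rw [v_dig _ _ _ _ _ _ (Nat.dvd_of_mem_primeFactors hc.1), h]
      exact hc.2.2
    all_goals exact absurd rfl hw

theorem v_cp (j : Fin (K + 1)) : ∀ n q, C.level q = n →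
    ((symm C m k K y).val x (cp j q) ↔
      C.val (Sum.elim (fun a => a ∈ y j) (fun b => x (Sum.inr b))) q) := by
  classical
  intro n
  induction n using Nat.strong_induction_on with
  | _ n ih =>
    intro q hq
    have hsum : ∀ (V : Prop → Prop), (∑ q' : UG α Q m k K, if V ((symm C m k K y).val x q') then
        (symm C m k K y).wires (cp j q) q' else 0)
        = ∑ q' : Q, if V (C.val (Sum.elim (fun a => a ∈ y j) (fun b => x (Sum.inr b))) q') then
          C.wires q q' else 0 := by
      intro V
      have e1 : (∑ q' : Q, if V (C.val (Sum.elim (fun a => a ∈ y j) (fun b => x (Sum.inr b))) q')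
          then C.wires q q' else 0)
          = ∑ q' ∈ (univ : Finset Q).map
            ⟨fun q' => (cp j q' : UG α Q m k K), fun a b h => by injection h⟩,
            if V ((symm C m k K y).val x q') then (symm C m k K y).wires (cp j q) q' else 0 := by
        rw [sum_map]
        apply sum_congr rfl
        intro q' _
        have hw : (symm C m k K y).wires (cp j q) (cp j q') = C.wires q q' := by
          show (if j = j then C.wires q q' else 0) = _
          rw [if_pos rfl]
        show _ = if V ((symm C m k K y).val x (cp j q')) then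
          (symm C m k K y).wires (cp j q) (cp j q') else 0
        rw [hw]
        by_cases h0 : C.wires q q' = 0
        · rw [h0]; simp
        · have := ih (C.level q') (by rw [← hq]; exact C.level_lt q q' h0) q' rfl
          have h2 : (symm C m k K y).val x (cp j q')
            = C.val (Sum.elim (fun a => a ∈ y j) (fun b => x (Sum.inr b))) q' := propext this
          rw [h2]
      rw [e1]
      symm
      apply sum_subset (subset_univ _)
      intro q' _ hq'
      rcases q' with _ | _ | _ | _ | ⟨j', q''⟩ | _ | _
      · split_ifs <;> rfl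
      · split_ifs <;> rfl
      · split_ifs <;> rfl
      · split_ifs <;> rfl
      · have hne : j ≠ j' := by
          rintro rfl
          exact hq' (mem_map.2 ⟨q'', mem_univ _, rfl⟩)
        have : (symm C m k K y).wires (cp j q) (cp j' q'') = 0 := by
          show (if j = j' then C.wires q q'' else 0) = _
          rw [if_neg hne]
        rw [this]; simp
      · split_ifs <;> rfl
      · split_ifs <;> rfl
    rcases hi : C.input q with _ | (a | b)
    · have hi' : (symm C m k K y).input (cp j q) = none := by
        show (match C.input q with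
          | some (Sum.inr b) => some (Sum.inr b)
          | _ => none) = none
        rw [hi]
      have hg : (symm C m k K y).gate (cp j q) = C.gate q := by
        show (match C.input q with
          | some (Sum.inl a) => fun _ _ => a ∈ y j
          | _ => C.gate q) = C.gate q
        rw [hi]
      have e2 := hsum (fun V => ¬ V)
      rw [val_gate _ _ _ hi', val_gate _ _ _ hi, hg, hsum (fun V => V)]
      convert Iff.rfl using 2
      convert e2.symm
    · have hi' : (symm C m k K y).input (cp j q) = none := by
        show (match C.input q with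
          | some (Sum.inr b) => some (Sum.inr b)
          | _ => none) = none
        rw [hi]
      have hg : (symm C m k K y).gate (cp j q) = fun _ _ => a ∈ y j := by
        show (match C.input q with
          | some (Sum.inl a) => fun _ _ => a ∈ y j
          | _ => C.gate q) = _
        rw [hi]
      rw [val_gate _ _ _ hi', val_input _ _ _ _ hi, hg]
      rfl
    · have hi' : (symm C m k K y).input (cp j q) = some (Sum.inr b) := by
        show (match C.input q with
          | some (Sum.inr b) => some (Sum.inr b)
          | _ => none) = some (Sum.inr b)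
        rw [hi]
      rw [val_input _ _ _ _ hi', val_input _ _ _ _ hi]
      rfl

theorem v_pr (hk : 1 ≤ k) (hm : m ≠ 0) (hcard : Fintype.card α = K)
    (hK : K < (k + 1) ^ m.primeFactors.card) (j : Fin (K + 1)) :
    (symm C m k K y).val x (pr j) ↔ (left x).card = j.1 ∧
      C.val (Sum.elim (fun a => a ∈ y j) (fun b => x (Sum.inr b))) C.out := by
  classical
  rw [and_gate _ _ _ rfl rfl]
  constructor
  · intro h
    constructor
    · rw [← v_eqn C y x hk hm hcard hK]
      apply h
      show (if j = j then 1 else 0) ≠ 0
      simp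
    · rw [← v_cp (m := m) (k := k) C y x j _ C.out rfl]
      apply h
      show (if j = j ∧ C.out = C.out then 1 else 0) ≠ 0
      simp
  · rintro ⟨h1, h2⟩ q' hw
    rcases q' with _ | _ | _ | j' | ⟨j', q'⟩ | _ | _
    · exact absurd rfl hw
    · exact absurd rfl hw
    · exact absurd rfl hw
    · have : j = j' := by
        by_contra hne
        apply hw
        show (if j = j' then 1 else 0) = 0
        rw [if_neg hne]
      subst this
      rw [v_eqn C y x hk hm hcard hK]
      exact h1
    · have : j = j' ∧ q' = C.out := by
        by_contra hne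
        apply hw
        show (if j = j' ∧ q' = C.out then 1 else 0) = 0
        rw [if_neg hne]
      obtain ⟨rfl, rfl⟩ := this
      rw [v_cp C y x j _ _ rfl]
      exact h2
    · exact absurd rfl hw
    · exact absurd rfl hw

theorem v_top (hk : 1 ≤ k) (hm : m ≠ 0) (hcard : Fintype.card α = K)
    (hK : K < (k + 1) ^ m.primeFactors.card) :
    (symm C m k K y).val x top ↔ ∃ j : Fin (K + 1), (left x).card = j.1 ∧
      C.val (Sum.elim (fun a => a ∈ y j) (fun b => x (Sum.inr b))) C.out := by
  classical
  rw [or_gate _ _ _ rfl rfl]
  constructor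
  · rintro ⟨q', hw, hv⟩
    rcases q' with _ | _ | _ | _ | ⟨_, _⟩ | j | _
    · exact absurd rfl hw
    · exact absurd rfl hw
    · exact absurd rfl hw
    · exact absurd rfl hw
    · exact absurd rfl hw
    · exact ⟨j, (v_pr C y x hk hm hcard hK j).1 hv⟩
    · exact absurd rfl hw
  · rintro ⟨j, hj⟩
    exact ⟨pr j, one_ne_zero, (v_pr C y x hk hm hcard hK j).2 hj⟩

end correct

/-- **Symmetrisation.** -/
theorem symmetrise {α M Q : Type} [Fintype α] [Fintype Q] (C : Circuit (α ⊕ M) Q)
    {m t k : ℕ} (hm : m ≠ 0) (ht : 1 ≤ t) (hk : 1 ≤ k) (hC : C.ModGates m t)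
    (F : (α ⊕ M → Prop) → Prop)
    (hF : ∀ (π : Perm α) x, F (fun i => x (Sum.map π id i)) ↔ F x) (hCF : C.Computes F)
    (hK : Fintype.card α < (k + 1) ^ m.primeFactors.card) :
    ∃ (Q' : Type) (_ : Fintype Q') (_ : MulAction (Perm α) Q') (C' : Circuit (α ⊕ M) Q'),
      (letI := moveLeft α M; C'.Invariant α) ∧ C'.ModGates m t ∧ C'.Computes F ∧
      C'.level C'.out ≤ C.level C.out + 5 ∧
      Fintype.card Q' ≤ (Fintype.card α + 1) ^ k + (m + 1) ^ 2 * (k + 1)
        + (Fintype.card α + 1) * (Fintype.card Q + 3) := by
  classical
  have hy : ∀ j : Fin (Fintype.card α + 1), ∃ y : Finset α, y.card = j.1 := by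
    intro j
    obtain ⟨y, -, hy⟩ := exists_subset_card_eq (s := (univ : Finset α)) (n := j.1) (by
      rw [card_univ]; have := j.2; omega)
    exact ⟨y, hy⟩
  choose y hy using hy
  refine ⟨UG α Q m k (Fintype.card α), inferInstance, inferInstance,
    symm C m k (Fintype.card α) y, symm_invariant C y, symm_modGates C y ht hC, ?_, le_rfl, ?_⟩
  · intro x
    rw [show (symm C m k (Fintype.card α) y).out = top from rfl, v_top C y x hk hm rfl hK]
    have key : ∀ j : Fin (Fintype.card α + 1), (left x).card = j.1 →
        (C.val (Sum.elim (fun a => a ∈ y j) (fun b => x (Sum.inr b))) C.out ↔ F x) := by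
      intro j hj
      rw [hCF]
      obtain ⟨π, hπ⟩ := exists_map (y := y j) (y' := left x) (by rw [hy j, hj])
      rw [← hF π x]
      have : (Sum.elim (fun a => a ∈ y j) (fun b => x (Sum.inr b)))
          = fun i => x (Sum.map π id i) := by
        funext i
        rcases i with a | b
        · show (a ∈ y j) = x (Sum.inl (π a))
          have h1 : π a ∈ left x ↔ a ∈ y j := by
            rw [← hπ, mem_map]
            constructor
            · rintro ⟨z, hz, he⟩
              rw [← π.injective he]; exact hz
            · intro h; exact ⟨a, h, rfl⟩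
          rw [← propext h1]
          simp [left]
        · rfl
      rw [this]
    constructor
    · rintro ⟨j, hj, hv⟩
      exact (key j hj).1 hv
    · intro h
      have hle : (left x).card < Fintype.card α + 1 := by
        have := card_le_univ (left x)
        omega
      exact ⟨⟨(left x).card, hle⟩, rfl, (key _ rfl).2 h⟩
  · refine (card_le (α := α) (Q := Q) (m := m) (k := k) (K := Fintype.card α)).trans ?_
    nlinarith

end H688R2.Sym
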