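import Mathlib

/-!
# Periods of binomial coefficients
-/

namespace H688R2.Sym

open Finset

/-- a common period modulo `m` of the binomial coefficients `w.choose u`, `u ≤ k` -/
def per (m k : ℕ) : ℕ := m * ∏ p ∈ m.primeFactors, p ^ Nat.log p k

theorem per_le (m k : ℕ) (hk : 1 ≤ k) : per m k ≤ m * k ^ m.primeFactors.card := by
  unfold per
  apply Nat.mul_le_mul_left
  calc ∏ p ∈ m.primeFactors, p ^ Nat.log p k ≤ ∏ _p ∈ m.primeFactors, k :=
        Finset.prod_le_prod' fun p _ => Nat.pow_log_le_self p (by omega)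
    _ = k ^ m.primeFactors.card := by rw [Finset.prod_const]

theorem per_pos (m k : ℕ) (hm : m ≠ 0) : 0 < per m k := by
  unfold per
  apply Nat.mul_pos (Nat.pos_of_ne_zero hm)
  apply Finset.prod_pos
  intro p hp
  exact pow_pos (Nat.prime_of_mem_primeFactors hp).pos _

theorem dvd_choose_per (m k : ℕ) (hm : m ≠ 0) (i : ℕ) (hi : 1 ≤ i) (hik : i ≤ k) :
    m ∣ (per m k).choose i := by
  by_cases hc : (per m k).choose i = 0
  · rw [hc]; exact dvd_zero m
  rw [← (Nat.factorization_prime_le_iff_dvd hm hc)]
  intro p hp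
  by_cases hpm : p ∣ m
  · have hmem : p ∈ m.primeFactors := Nat.mem_primeFactors.2 ⟨hp, hpm, hm⟩
    obtain ⟨j, rfl⟩ : ∃ j, i = j + 1 := ⟨i - 1, by omega⟩
    obtain ⟨R, hR⟩ : ∃ R, per m k = R + 1 := ⟨per m k - 1, by have := per_pos m k hm; omega⟩
    have hid : (R + 1) * R.choose j = (R + 1).choose (j + 1) * (j + 1) :=
      Nat.add_one_mul_choose_eq R j
    rw [hR] at hc
    have hc' : R.choose j ≠ 0 := by
      intro h
      rw [h, mul_zero] at hid
      rcases Nat.mul_eq_zero.1 hid.symm with h' | h'
      · exact hc h'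
      · omega
    have hf := congrArg (fun n => n.factorization p) hid
    rw [Nat.factorization_mul (by omega) hc', Nat.factorization_mul hc (by omega)] at hf
    simp only [Finsupp.add_apply] at hf
    have h1 : m.factorization p + Nat.log p k ≤ (R + 1).factorization p := by
      rw [← hR]
      unfold per
      have hprod : (∏ p ∈ m.primeFactors, p ^ Nat.log p k) ≠ 0 := by
        apply Finset.prod_ne_zero_iff.2
        intro p hp
        exact (pow_pos (Nat.prime_of_mem_primeFactors hp).pos _).ne'
      rw [Nat.factorization_mul hm hprod, Finsupp.add_apply]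
      apply Nat.add_le_add_left
      have hdvd : p ^ Nat.log p k ∣ ∏ p ∈ m.primeFactors, p ^ Nat.log p k :=
        Finset.dvd_prod_of_mem _ hmem
      exact (hp.pow_dvd_iff_le_factorization hprod).1 hdvd
    have h2 : (j + 1).factorization p ≤ Nat.log p k := by
      apply Nat.le_log_of_pow_le hp.one_lt
      exact (Nat.le_of_dvd (by omega) (Nat.ordProj_dvd (j + 1) p)).trans hik
    rw [hR]
    omega
  · rw [Nat.factorization_eq_zero_of_not_dvd hpm]
    exact Nat.zero_le _

theorem choose_add_per (m k : ℕ) (hm : m ≠ 0) (w u : ℕ) (hu : u ≤ k) :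
    (w + per m k).choose u ≡ w.choose u [MOD m] := by
  rw [Nat.add_choose_eq]
  have h0 : (u, 0) ∈ antidiagonal u := by simp
  rw [← Finset.add_sum_erase _ _ h0]
  have : ∑ ij ∈ (antidiagonal u).erase (u, 0), w.choose ij.1 * (per m k).choose ij.2 ≡ 0
      [MOD m] := by
    rw [Nat.modEq_zero_iff_dvd]
    apply Finset.dvd_sum
    rintro ⟨a, b⟩ hab
    rw [Finset.mem_erase, Finset.HasAntidiagonal.mem_antidiagonal] at hab
    obtain ⟨h1, h2⟩ := hab
    simp only at h2
    have hb : b ≠ 0 := by
      rintro rfl
      exact h1 (by simp at h2; rw [h2])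
    exact Dvd.dvd.mul_left (dvd_choose_per m k hm b (by omega) (by omega)) _
  have h2 := Nat.ModEq.add_left (w.choose u * (per m k).choose 0) this
  rw [Nat.choose_zero_right, mul_one, add_zero] at h2
  rw [Nat.choose_zero_right, mul_one]
  exact h2

theorem choose_modEq (m k : ℕ) (hm : m ≠ 0) {w w' : ℕ} (h : w ≡ w' [MOD per m k]) (u : ℕ)
    (hu : u ≤ k) : w.choose u ≡ w'.choose u [MOD m] := by
  have key : ∀ c w, (w + c * per m k).choose u ≡ w.choose u [MOD m] := by
    intro c
    induction c with
    | zero => intro w; simp; rfl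
    | succ c ih =>
      intro w
      have := choose_add_per m k hm (w + c * per m k) u hu
      rw [show w + (c + 1) * per m k = w + c * per m k + per m k by ring]
      exact this.trans (ih w)
  rcases le_total w w' with hle | hle
  · obtain ⟨c, hc⟩ := (Nat.modEq_iff_dvd' hle).1 h
    have : w' = w + c * per m k := by rw [mul_comm]; omega
    rw [this]
    exact (key c w).symm
  · obtain ⟨c, hc⟩ := (Nat.modEq_iff_dvd' hle).1 h.symm
    have : w = w' + c * per m k := by rw [mul_comm]; omega
    rw [this]
    exact key c w'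

end H688R2.Sym
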