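import Pool.Agent.H688R2.Sym.Sup
import Pool.Agent.H688R2.Sym.Per

/-!
# Counting the true gates below a gate
-/

namespace H688R2.Sym

open Equiv Finset

variable {α : Type*} [DecidableEq α] [Fintype α]

/-- an even permutation fixing `S` and moving `B` to `B'` and `D` to `D'` -/
theorem exists_perm {S B D B' D' : Finset α} (h1 : Disjoint S B) (h2 : Disjoint S D)
    (h3 : Disjoint B D) (h1' : Disjoint S B') (h2' : Disjoint S D') (h3' : Disjoint B' D')
    (hB : B.card = B'.card) (hD : D.card = D'.card)
    (hc : S.card + B.card + D.card + 2 ≤ Fintype.card α) :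
    ∃ h : Perm α, Perm.sign h = 1 ∧ (∀ x ∈ S, h x = x) ∧ (∀ x, h x ∈ B' ↔ x ∈ B) ∧
      (∀ x, h x ∈ D' ↔ x ∈ D) := by
  classical
  let col : Finset α → Finset α → α → α ⊕ ℕ := fun B D x =>
    if x ∈ S then Sum.inl x else if x ∈ B then Sum.inr 0 else if x ∈ D then Sum.inr 1
    else Sum.inr 2
  have colS : ∀ B D x, x ∈ S → col B D x = Sum.inl x := by
    intro B D x hx; simp [col, hx]
  have colB : ∀ B D x, Disjoint S B → x ∈ B → col B D x = Sum.inr 0 := by
    intro B D x hd hx
    have : x ∉ S := fun h => disjoint_left.1 hd h hx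
    simp [col, hx, this]
  have colD : ∀ B D x, Disjoint S D → Disjoint B D → x ∈ D → col B D x = Sum.inr 1 := by
    intro B D x hd hd' hx
    have h1 : x ∉ S := fun h => disjoint_left.1 hd h hx
    have h2 : x ∉ B := fun h => disjoint_left.1 hd' h hx
    simp [col, hx, h1, h2]
  have colS' : ∀ B D x s, col B D x = Sum.inl s ↔ x ∈ S ∧ x = s := by
    intro B D x s
    simp only [col]
    split_ifs <;> simp_all
  have colB' : ∀ B D x, Disjoint S B → (col B D x = Sum.inr 0 ↔ x ∈ B) := by
    intro B D x hd
    constructor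
    · intro h
      simp only [col] at h
      split_ifs at h <;> simp_all
    · exact colB B D x hd
  have colD' : ∀ B D x, Disjoint S D → Disjoint B D → (col B D x = Sum.inr 1 ↔ x ∈ D) := by
    intro B D x hd hd'
    constructor
    · intro h
      simp only [col] at h
      split_ifs at h <;> simp_all
    · exact colD B D x hd hd'
  have colO : ∀ B D x n, Disjoint S B → Disjoint S D → Disjoint B D →
      (col B D x = Sum.inr (n + 2) ↔ n = 0 ∧ x ∉ S ∪ (B ∪ D)) := by
    intro B D x n hd hd' hd''
    simp only [col]
    split_ifs <;> simp_all <;> omega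
  -- sizes of fibres
  have hfib : ∀ c, Nonempty ({x // col B D x = c} ≃ {x // col B' D' x = c}) := by
    intro c
    refine ⟨Fintype.equivOfCardEq ?_⟩
    rw [Fintype.card_subtype, Fintype.card_subtype]
    rcases c with s | n
    · congr 1
      ext x
      simp only [mem_filter, mem_univ, true_and, colS']
    · rcases n with _ | _ | n
      · have e1 : (univ.filter fun x => col B D x = Sum.inr 0) = B := by
          ext x; simp only [mem_filter, mem_univ, true_and, colB' B D x h1]
        have e2 : (univ.filter fun x => col B' D' x = Sum.inr 0) = B' := by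
          ext x; simp only [mem_filter, mem_univ, true_and, colB' B' D' x h1']
        rw [e1, e2, hB]
      · have e1 : (univ.filter fun x => col B D x = Sum.inr 1) = D := by
          ext x; simp only [mem_filter, mem_univ, true_and, colD' B D x h2 h3]
        have e2 : (univ.filter fun x => col B' D' x = Sum.inr 1) = D' := by
          ext x; simp only [mem_filter, mem_univ, true_and, colD' B' D' x h2' h3']
        rw [show (0 + 1 : ℕ) = 1 from rfl, e1, e2, hD]
      · by_cases hn : n = 0
        · subst hn
          have e1 : (univ.filter fun x => col B D x = Sum.inr (0 + 2)) = (S ∪ (B ∪ D))ᶜ := by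
            ext x
            rw [mem_filter, mem_compl, colO B D x 0 h1 h2 h3]
            simp
          have e2 : (univ.filter fun x => col B' D' x = Sum.inr (0 + 2)) = (S ∪ (B' ∪ D'))ᶜ := by
            ext x
            rw [mem_filter, mem_compl, colO B' D' x 0 h1' h2' h3']
            simp
          rw [show (0 + 1 + 1 : ℕ) = 0 + 2 from rfl, e1, e2, card_compl, card_compl,
            card_union_of_disjoint (disjoint_union_right.2 ⟨h1, h2⟩), card_union_of_disjoint h3,
            card_union_of_disjoint (disjoint_union_right.2 ⟨h1', h2'⟩), card_union_of_disjoint h3',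
            hB, hD]
        · have e1 : (univ.filter fun x => col B D x = Sum.inr (n + 2)) = ∅ := by
            ext x
            rw [mem_filter, colO B D x n h1 h2 h3]
            simp [hn]
          have e2 : (univ.filter fun x => col B' D' x = Sum.inr (n + 2)) = ∅ := by
            ext x
            rw [mem_filter, colO B' D' x n h1' h2' h3']
            simp [hn]
          rw [show (n + 1 + 1 : ℕ) = n + 2 from rfl, e1, e2]
  let e : ∀ c, {x // col B D x = c} ≃ {x // col B' D' x = c} := fun c => (hfib c).some
  let h0 : Perm α := Equiv.ofFiberEquiv e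
  have hcol : ∀ x, col B' D' (h0 x) = col B D x := fun x => Equiv.ofFiberEquiv_map e x
  have p1 : ∀ x ∈ S, h0 x = x := by
    intro x hx
    have := hcol x
    rw [colS B D x hx] at this
    exact ((colS' B' D' (h0 x) x).1 this).2
  have p2 : ∀ x, h0 x ∈ B' ↔ x ∈ B := by
    intro x
    rw [← colB' B' D' (h0 x) h1', hcol, colB' B D x h1]
  have p3 : ∀ x, h0 x ∈ D' ↔ x ∈ D := by
    intro x
    rw [← colD' B' D' (h0 x) h2' h3', hcol, colD' B D x h2 h3]
  rcases Int.units_eq_one_or (Perm.sign h0) with hs | hs
  · exact ⟨h0, hs, p1, p2, p3⟩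
  · obtain ⟨a, ha, b, hb, hab⟩ : ∃ a ∈ (S ∪ (B ∪ D))ᶜ, ∃ b ∈ (S ∪ (B ∪ D))ᶜ, a ≠ b := by
      rw [← one_lt_card]
      rw [card_compl]
      have h4 := card_union_le S (B ∪ D)
      have h5 := card_union_le B D
      omega
    simp only [mem_compl, mem_union, not_or] at ha hb
    refine ⟨h0 * swap a b, ?_, ?_, ?_, ?_⟩
    · rw [map_mul, hs, Perm.sign_swap hab]; rfl
    · intro x hx
      rw [Perm.mul_apply, swap_apply_of_ne_of_ne, p1 x hx]
      · rintro rfl; exact ha.1 hx
      · rintro rfl; exact hb.1 hx
    · intro x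
      rw [Perm.mul_apply]
      by_cases hxa : x = a
      · subst hxa
        rw [swap_apply_left, p2]
        exact ⟨fun h => absurd h hb.2.1, fun h => absurd h ha.2.1⟩
      by_cases hxb : x = b
      · subst hxb
        rw [swap_apply_right, p2]
        exact ⟨fun h => absurd h ha.2.1, fun h => absurd h hb.2.1⟩
      rw [swap_apply_of_ne_of_ne hxa hxb, p2]
    · intro x
      rw [Perm.mul_apply]
      by_cases hxa : x = a
      · subst hxa
        rw [swap_apply_left, p3]
        exact ⟨fun h => absurd h hb.2.2, fun h => absurd h ha.2.2⟩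
      by_cases hxb : x = b
      · subst hxb
        rw [swap_apply_right, p3]
        exact ⟨fun h => absurd h ha.2.2, fun h => absurd h hb.2.2⟩
      rw [swap_apply_of_ne_of_ne hxa hxb, p3]

/-- summing a function of the sizes of the two parts of the subsets of `T` -/
theorem sum_powerset_split (T y : Finset α) (F : ℕ → ℕ → ℕ) :
    ∑ A ∈ T.powerset, F (A ∩ y).card (A \ y).card
      = ∑ u ∈ range ((T ∩ y).card + 1), ∑ v ∈ range ((T \ y).card + 1),
          (T ∩ y).card.choose u * ((T \ y).card.choose v * F u v) := by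
  have h1 : ∑ A ∈ T.powerset, F (A ∩ y).card (A \ y).card
      = ∑ p ∈ (T ∩ y).powerset ×ˢ (T \ y).powerset, F p.1.card p.2.card := by
    refine Finset.sum_bij' (fun A _ => (A ∩ y, A \ y)) (fun p _ => p.1 ∪ p.2) ?_ ?_ ?_ ?_ ?_
    · intro A hA
      rw [mem_powerset] at hA
      rw [mem_product, mem_powerset, mem_powerset]
      exact ⟨inter_subset_inter_right hA, sdiff_subset_sdiff hA (le_refl y)⟩
    · rintro ⟨B, D⟩ h
      rw [mem_product, mem_powerset, mem_powerset] at h
      rw [mem_powerset]
      exact union_subset (h.1.trans inter_subset_left) (h.2.trans sdiff_subset)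
    · intro A _
      ext x
      simp only [mem_union, mem_inter, mem_sdiff]
      tauto
    · rintro ⟨B, D⟩ h
      rw [mem_product, mem_powerset, mem_powerset] at h
      obtain ⟨hB, hD⟩ := h
      simp only at hB hD
      simp only [Prod.mk.injEq]
      constructor
      · ext x
        simp only [mem_union, mem_inter]
        constructor
        · rintro ⟨h | h, hy⟩
          · exact h
          · exact absurd hy (mem_sdiff.1 (hD h)).2
        · intro h
          exact ⟨Or.inl h, (mem_inter.1 (hB h)).2⟩
      · ext x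
        simp only [mem_union, mem_sdiff]
        constructor
        · rintro ⟨h | h, hy⟩
          · exact absurd (mem_inter.1 (hB h)).2 hy
          · exact h
        · intro h
          exact ⟨Or.inr h, (mem_sdiff.1 (hD h)).2⟩
    · intro A _; rfl
  rw [h1, sum_product]
  rw [sum_powerset_apply_card (fun u => ∑ D ∈ (T \ y).powerset, F u D.card)]
  apply sum_congr rfl
  intro u _
  rw [sum_powerset_apply_card (fun v => F u v)]
  rw [smul_eq_mul, mul_sum]
  apply sum_congr rfl
  intro v _
  rw [smul_eq_mul]

theorem modEq_sum {ι : Type*} (s : Finset ι) (f g : ι → ℕ) (m : ℕ)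
    (h : ∀ i ∈ s, f i ≡ g i [MOD m]) : ∑ i ∈ s, f i ≡ ∑ i ∈ s, g i [MOD m] := by
  classical
  induction s using Finset.induction_on with
  | empty => rfl
  | insert a s ha ih =>
    rw [sum_insert ha, sum_insert ha]
    exact (h a (mem_insert_self a s)).add (ih fun i hi => h i (mem_insert_of_mem hi))

/-- The arithmetic part: such a sum is periodic modulo `m` and constant after truncation. -/
theorem sum_choose_periodic (m k t : ℕ) (hm : m ≠ 0) (ν : ℕ → ℕ → ℕ) {w₁ w₂ w₁' w₂' : ℕ}
    (h1 : w₁ ≡ w₁' [MOD per m k]) (h2 : w₂ ≡ w₂' [MOD per m k])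
    (l1 : k + t + 1 ≤ w₁) (l2 : k + t + 1 ≤ w₂) (l1' : k + t + 1 ≤ w₁') (l2' : k + t + 1 ≤ w₂') :
    ∑ u ∈ range (k + 1), ∑ v ∈ range (k + 1), w₁.choose u * (w₂.choose v * ν u v)
      ≡ ∑ u ∈ range (k + 1), ∑ v ∈ range (k + 1), w₁'.choose u * (w₂'.choose v * ν u v) [MOD m] ∧
    min (∑ u ∈ range (k + 1), ∑ v ∈ range (k + 1), w₁.choose u * (w₂.choose v * ν u v)) t
      = min (∑ u ∈ range (k + 1), ∑ v ∈ range (k + 1), w₁'.choose u * (w₂'.choose v * ν u v)) t := by
  constructor
  · apply modEq_sum
    intro u hu
    rw [mem_range] at hu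
    apply modEq_sum
    intro v hv
    rw [mem_range] at hv
    exact (choose_modEq m k hm h1 u (by omega)).mul
      ((choose_modEq m k hm h2 v (by omega)).mul_right _)
  · by_cases hν : ∃ u v, u ≤ k ∧ v ≤ k ∧ (u ≠ 0 ∨ v ≠ 0) ∧ ν u v ≠ 0
    · obtain ⟨u, v, hu, hv, huv, hne⟩ := hν
      have key : ∀ w₁ w₂ : ℕ, k + t + 1 ≤ w₁ → k + t + 1 ≤ w₂ →
          t ≤ ∑ u ∈ range (k + 1), ∑ v ∈ range (k + 1), w₁.choose u * (w₂.choose v * ν u v) := by
        intro w₁ w₂ g1 g2
        have e1 : w₁.choose u * (w₂.choose v * ν u v)
            ≤ ∑ u ∈ range (k + 1), ∑ v ∈ range (k + 1), w₁.choose u * (w₂.choose v * ν u v) := by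
          refine le_trans ?_ (single_le_sum (f := fun u => ∑ v ∈ range (k + 1),
            w₁.choose u * (w₂.choose v * ν u v)) (fun _ _ => Nat.zero_le _)
            (mem_range.2 (show u < k + 1 by omega)))
          exact single_le_sum (f := fun v => w₁.choose u * (w₂.choose v * ν u v))
            (fun _ _ => Nat.zero_le _) (mem_range.2 (show v < k + 1 by omega))
        refine le_trans ?_ e1
        have big : ∀ w z : ℕ, k + t + 1 ≤ w → z ≤ k → z ≠ 0 → t ≤ w.choose z := by
          intro w z hw hz hz0
          have := H534R2.SymSw.choose_le_of_between (n := w) (r := 1) (c := z) (by omega) (by omega)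
            (by omega)
          rw [Nat.choose_one_right] at this
          omega
        have pos1 : 1 ≤ w₁.choose u := Nat.choose_pos (by omega)
        have pos2 : 1 ≤ w₂.choose v := Nat.choose_pos (by omega)
        have pos3 : 1 ≤ ν u v := Nat.one_le_iff_ne_zero.2 hne
        rcases huv with h | h
        · have := big w₁ u g1 hu h
          calc t ≤ w₁.choose u * 1 := by omega
            _ ≤ w₁.choose u * (w₂.choose v * ν u v) :=
              Nat.mul_le_mul_left _ (Nat.mul_pos pos2 pos3)
        · have := big w₂ v g2 hv h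
          calc t ≤ 1 * (w₂.choose v * 1) := by omega
            _ ≤ w₁.choose u * (w₂.choose v * ν u v) :=
              Nat.mul_le_mul pos1 (Nat.mul_le_mul_left _ pos3)
      rw [min_eq_right (key _ _ l1 l2), min_eq_right (key _ _ l1' l2')]
    · push Not at hν
      congr 1
      apply sum_congr rfl
      intro u hu
      apply sum_congr rfl
      intro v hv
      rw [mem_range] at hu hv
      by_cases h0 : u = 0 ∧ v = 0
      · rw [h0.1, h0.2]; simp
      · have : ν u v = 0 := hν u v (by omega) (by omega) (by omega)
        rw [this]; simp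

end H688R2.Sym
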