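import Mathlib

/-!
# Circuits with modular counting gates, and their symmetries
-/

namespace H688R2.Sym

open Equiv

/-- A circuit with inputs `I` and gates `Q`.  `wires q q'` is the number of parallel wires leading
from the gate `q'` to the gate `q`; they lead to higher levels (so the depth is at most the level
of the output gate).  A gate with `input q = some i` reads the input `i`.  Every other gate `q`
outputs `gate q a b`, where `a` and `b` are the numbers of its incoming wires that carry the value
true and false. -/
structure Circuit (I Q : Type*) where
  level : Q → ℕ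
  input : Q → Option I
  wires : Q → Q → ℕ
  gate : Q → ℕ → ℕ → Prop
  out : Q
  level_lt : ∀ q q', wires q q' ≠ 0 → level q' < level q

open scoped Classical in
/-- The value of the gate `q` on the input `x`. -/
noncomputable def Circuit.val {I Q : Type*} [Fintype Q] (C : Circuit I Q) (x : I → Prop)
    (q : Q) : Prop :=
  match C.input q with
  | some i => x i
  | none => C.gate q
      (∑ q' : {q' // C.wires q q' ≠ 0}, if C.val x q'.1 then C.wires q q'.1 else 0)
      (∑ q' : {q' // C.wires q q' ≠ 0}, if C.val x q'.1 then 0 else C.wires q q'.1)
termination_by C.level q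
decreasing_by all_goals exact C.level_lt _ _ q'.2

/-- The circuit computes the Boolean function `F`. -/
def Circuit.Computes {I Q : Type*} [Fintype Q] (C : Circuit I Q) (F : (I → Prop) → Prop) : Prop :=
  ∀ x : I → Prop, C.val x C.out ↔ F x

/-- All gates are built from counting modulo `m` and counting up to the threshold `t`: the output
depends only on `a` modulo `m`, on `min a t` and on `min b t`, where `a` and `b` are the numbers of
true and false incoming wires.  For `t = 1` these are the gates AND, OR, NOT, `MOD_m` and the
combinations of such gates with the same incoming wires. -/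
def Circuit.ModGates {I Q : Type*} (C : Circuit I Q) (m t : ℕ) : Prop :=
  ∀ q a b a' b', a % m = a' % m → min a t = min a' t → min b t = min b' t →
    (C.gate q a b ↔ C.gate q a' b')

/-- The permutations of `α` act on the gates and on the inputs by automorphisms of the circuit. -/
structure Circuit.Invariant (α : Type*) {I Q : Type*} [MulAction (Perm α) I]
    [MulAction (Perm α) Q] (C : Circuit I Q) : Prop where
  input : ∀ (π : Perm α) q, C.input (π • q) = (C.input q).map (π • ·)
  wires : ∀ (π : Perm α) q q', C.wires (π • q) (π • q') = C.wires q q'
  gate : ∀ (π : Perm α) q, C.gate (π • q) = C.gate q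
  out : ∀ π : Perm α, π • C.out = C.out

/-- The majority function: at least half of the inputs are true. -/
def Majority {I : Type*} (x : I → Prop) : Prop := Nat.card I ≤ 2 * Nat.card {i // x i}

/-- The permutations of `α` acting on the inputs `α ⊕ M`, moving only the inputs in `α`. -/
@[reducible] def moveLeft (α M : Type*) : MulAction (Perm α) (α ⊕ M) where
  smul π := Sum.map π id
  one_smul := by rintro (a | b) <;> rfl
  mul_smul := by rintro π σ (a | b) <;> rfl

/-- Majority has circuits of constant depth and polynomial size with modular gates of some fixed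
modulus (that is, majority belongs to `ACC⁰`). -/
def MajACC0 : Prop :=
  ∃ m d e : ℕ, m ≠ 0 ∧ ∀ (I : Type) (_ : Fintype I),
    ∃ (Q : Type) (_ : Fintype Q) (C : Circuit I Q),
      C.ModGates m 1 ∧ C.Computes Majority ∧ C.level C.out ≤ d ∧
      Fintype.card Q ≤ (Fintype.card I + 2) ^ e

/-- The same with circuits that are invariant under all permutations of `α`, a set of at most
`(log₂ n) ^ c` of the `n` inputs. -/
def SymMajACC0 (c : ℕ) : Prop :=
  ∃ m d e : ℕ, m ≠ 0 ∧ ∀ (α M : Type) (_ : Fintype α) (_ : Fintype M),
    Fintype.card α ≤ Nat.log 2 (Fintype.card α + Fintype.card M) ^ c →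
    ∃ (Q : Type) (_ : Fintype Q) (_ : MulAction (Perm α) Q) (C : Circuit (α ⊕ M) Q),
      (letI := moveLeft α M; C.Invariant α) ∧
      C.ModGates m 1 ∧ C.Computes Majority ∧ C.level C.out ≤ d ∧
      Fintype.card Q ≤ (Fintype.card α + Fintype.card M + 2) ^ e

/-- Majority of `n` inputs has circuits of any depth with at most `(n + 2) ^ e` gates counting
modulo `m`, which are invariant under all permutations of `(log₂ n) ^ c` of the inputs. -/
def SymMaj (m c e : ℕ) : Prop :=
  ∀ (α M : Type) (_ : Fintype α) (_ : Fintype M),
    Fintype.card α ≤ Nat.log 2 (Fintype.card α + Fintype.card M) ^ c →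
    ∃ (Q : Type) (_ : Fintype Q) (_ : MulAction (Perm α) Q) (C : Circuit (α ⊕ M) Q),
      (letI := moveLeft α M; C.Invariant α) ∧ C.ModGates m 1 ∧ C.Computes Majority ∧
      Fintype.card Q ≤ (Fintype.card α + Fintype.card M + 2) ^ e

end H688R2.Sym
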