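import Pool.Agent.H688R2.Sym.Correct

/-!
# The question for polylogarithmically symmetric circuits
-/

namespace H688R2.Sym

open Equiv Finset

section relabel

variable {I J Q : Type*}

/-- renaming the inputs -/
def Circuit.relabel (C : Circuit I Q) (e : I ≃ J) : Circuit J Q where
  level := C.level
  input q := (C.input q).map e
  wires := C.wires
  gate := C.gate
  out := C.out
  level_lt := C.level_lt

theorem val_relabel [Fintype Q] (C : Circuit I Q) (e : I ≃ J) (x : J → Prop) :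
    ∀ n q, C.level q = n → ((C.relabel e).val x q ↔ C.val (fun i => x (e i)) q) := by
  classical
  intro n
  induction n using Nat.strong_induction_on with
  | _ n ih =>
    intro q hq
    rcases hi : C.input q with _ | i
    · have hi' : (C.relabel e).input q = none := by
        show (C.input q).map e = none
        rw [hi]; rfl
      rw [val_gate _ x _ hi', val_gate C _ _ hi]
      have key : ∀ q', C.wires q q' ≠ 0 →
          ((C.relabel e).val x q' ↔ C.val (fun i => x (e i)) q') := by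
        intro q' hw
        exact ih (C.level q') (by rw [← hq]; exact C.level_lt q q' hw) q' rfl
      have e1 : (∑ q', if (C.relabel e).val x q' then (C.relabel e).wires q q' else 0)
          = ∑ q', if C.val (fun i => x (e i)) q' then C.wires q q' else 0 := by
        apply sum_congr rfl
        intro q' _
        show (if (C.relabel e).val x q' then C.wires q q' else 0) = _
        by_cases hw : C.wires q q' = 0
        · rw [hw]; simp
        · simp only [key q' hw]
      have e2 : (∑ q', if ¬ (C.relabel e).val x q' then (C.relabel e).wires q q' else 0)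
          = ∑ q', if ¬ C.val (fun i => x (e i)) q' then C.wires q q' else 0 := by
        apply sum_congr rfl
        intro q' _
        show (if ¬ (C.relabel e).val x q' then C.wires q q' else 0) = _
        by_cases hw : C.wires q q' = 0
        · rw [hw]; simp
        · simp only [key q' hw]
      rw [e1, e2]
      rfl
    · have hi' : (C.relabel e).input q = some (e i) := by
        show (C.input q).map e = some (e i)
        rw [hi]; rfl
      rw [val_input _ x _ _ hi', val_input C _ _ _ hi]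

theorem majority_comp (e : I ≃ J) (x : J → Prop) :
    Majority (fun i => x (e i)) ↔ Majority x := by
  unfold Majority
  rw [Nat.card_congr e, Nat.card_congr (e.subtypeEquiv (p := fun i => x (e i)) (q := x)
    (fun _ => Iff.rfl))]

theorem relabel_computes [Fintype Q] {C : Circuit I Q} (h : C.Computes Majority) (e : I ≃ J) :
    (C.relabel e).Computes Majority := by
  intro x
  rw [show (C.relabel e).out = C.out from rfl, val_relabel C e x _ C.out rfl, h, majority_comp]

end relabel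

theorem modGates_mono {I Q : Type*} {C : Circuit I Q} {m m' t : ℕ} (h : C.ModGates m t)
    (hm : m ∣ m') : C.ModGates m' t := by
  intro q a b a' b' h1 h2 h3
  exact h q a b a' b' (Nat.ModEq.of_dvd hm h1) h2 h3

theorem exists_modulus (m₀ c : ℕ) (h0 : m₀ ≠ 0) :
    ∃ m, m ≠ 0 ∧ m₀ ∣ m ∧ c ≤ m.primeFactors.card := by
  obtain ⟨s, hs, hc⟩ := Nat.infinite_setOfPred_prime.exists_subset_card_eq c
  have hprod : (∏ p ∈ s, p) ≠ 0 := by
    apply Finset.prod_ne_zero_iff.2
    intro p hp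
    exact (hs hp : p.Prime).ne_zero
  refine ⟨m₀ * ∏ p ∈ s, p, Nat.mul_ne_zero h0 hprod, Dvd.intro _ rfl, ?_⟩
  rw [← hc]
  apply card_le_card
  intro p hp
  rw [Nat.mem_primeFactors]
  refine ⟨hs hp, ?_, Nat.mul_ne_zero h0 hprod⟩
  exact Dvd.dvd.mul_left (Finset.dvd_prod_of_mem _ hp) _

theorem size_bound (c K n m e₀ s : ℕ) (hs1 : s * s ≤ Nat.log 2 n) (hK : K ≤ n)
    (hK2 : K < (s + 2) ^ (2 * c + 1)) :
    (K + 1) ^ (s + 1) + (m + 1) ^ 2 * (s + 1 + 1) + (K + 1) * ((n + 2) ^ e₀ + 3)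
      ≤ (n + 2) ^ (4 * (2 * c + 1) + (m + 1) ^ 2 + e₀ + 5) := by
  have hL : 2 ^ Nat.log 2 n ≤ n + 2 := by
    rcases Nat.eq_zero_or_pos n with h | h
    · subst h; simp
    · exact (Nat.pow_log_le_self 2 (by omega)).trans (by omega)
  have hLn : Nat.log 2 n ≤ n := Nat.log_le_self 2 n
  have hsL : s ≤ Nat.log 2 n := by nlinarith
  have two : ∀ z : ℕ, 2 ^ z ≤ (n + 2) ^ z := fun z => Nat.pow_le_pow_left (by omega) z
  have h1 : (K + 1) ^ (s + 1) ≤ (n + 2) ^ (4 * (2 * c + 1)) := by
    have e1 : s + 2 ≤ 2 ^ (s + 1) := Nat.lt_two_pow_self (n := s + 1)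
    calc (K + 1) ^ (s + 1) ≤ ((s + 2) ^ (2 * c + 1)) ^ (s + 1) := Nat.pow_le_pow_left hK2 _
      _ ≤ ((2 ^ (s + 1)) ^ (2 * c + 1)) ^ (s + 1) :=
          Nat.pow_le_pow_left (Nat.pow_le_pow_left e1 _) _
      _ = 2 ^ ((s + 1) * (s + 1) * (2 * c + 1)) := by
          rw [← pow_mul, ← pow_mul]; congr 1; ring
      _ ≤ 2 ^ ((3 * Nat.log 2 n + 1) * (2 * c + 1)) := by
          apply Nat.pow_le_pow_right (by norm_num)
          apply Nat.mul_le_mul_right
          nlinarith
      _ = ((2 ^ Nat.log 2 n) ^ 3 * 2) ^ (2 * c + 1) := by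
          rw [← pow_mul, ← pow_succ, ← pow_mul]; congr 1; ring
      _ ≤ ((n + 2) ^ 3 * (n + 2)) ^ (2 * c + 1) := by
          apply Nat.pow_le_pow_left
          exact Nat.mul_le_mul (Nat.pow_le_pow_left hL 3) (by omega)
      _ = (n + 2) ^ (4 * (2 * c + 1)) := by rw [← pow_succ, ← pow_mul]
  have h2 : (m + 1) ^ 2 * (s + 1 + 1) ≤ (n + 2) ^ ((m + 1) ^ 2 + 1) := by
    rw [pow_succ]
    apply Nat.mul_le_mul
    · exact (Nat.lt_two_pow_self.le).trans (two _)
    · omega
  have h3 : (K + 1) * ((n + 2) ^ e₀ + 3) ≤ (n + 2) ^ (e₀ + 3) := by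
    have e1 : (n + 2) ^ e₀ + 3 ≤ (n + 2) ^ (e₀ + 2) := by
      rw [pow_add]
      have h1 : 1 ≤ (n + 2) ^ e₀ := Nat.one_le_pow _ _ (by omega)
      have h4 : 4 ≤ (n + 2) ^ 2 := by nlinarith
      calc (n + 2) ^ e₀ + 3 ≤ (n + 2) ^ e₀ * 4 := by omega
        _ ≤ (n + 2) ^ e₀ * (n + 2) ^ 2 := Nat.mul_le_mul_left _ h4
    calc (K + 1) * ((n + 2) ^ e₀ + 3) ≤ (n + 2) * (n + 2) ^ (e₀ + 2) :=
          Nat.mul_le_mul (by omega) e1
      _ = _ := by ring
  set E := 4 * (2 * c + 1) + (m + 1) ^ 2 + e₀ + 3 with hE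
  have up : ∀ z, z ≤ E → (n + 2) ^ z ≤ (n + 2) ^ E := fun z hz =>
    Nat.pow_le_pow_right (by omega) hz
  have h4 : (K + 1) ^ (s + 1) + (m + 1) ^ 2 * (s + 1 + 1) + (K + 1) * ((n + 2) ^ e₀ + 3)
      ≤ 3 * (n + 2) ^ E := by
    have u1 := h1.trans (up _ (by omega))
    have u2 := h2.trans (up _ (by omega))
    have u3 := h3.trans (up _ (by omega))
    omega
  refine h4.trans ?_
  rw [show 4 * (2 * c + 1) + (m + 1) ^ 2 + e₀ + 5 = E + 2 by omega, pow_add _ E 2,
    mul_comm 3 ((n + 2) ^ E)]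
  apply Nat.mul_le_mul_left
  nlinarith

theorem majACC0_iff : MajACC0 ↔ ∀ c, SymMajACC0 c := by
  classical
  constructor
  · rintro ⟨m₀, d, e₀, h0, h⟩ c
    obtain ⟨m, hm, hdvd, hω⟩ := exists_modulus m₀ (2 * c + 1) h0
    refine ⟨m, d + 5, 4 * (2 * c + 1) + (m + 1) ^ 2 + e₀ + 5, hm, ?_⟩
    intro α M _ _ hα
    obtain ⟨Q, _, C, hC1, hC2, hC3, hC4⟩ := h (α ⊕ M) inferInstance
    set n := Fintype.card α + Fintype.card M with hn
    set L := Nat.log 2 n with hL
    have hs1 : Nat.sqrt L * Nat.sqrt L ≤ L := Nat.sqrt_le L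
    have hs2 : L < (Nat.sqrt L + 1) * (Nat.sqrt L + 1) := Nat.lt_succ_sqrt L
    have hK2 : Fintype.card α < (Nat.sqrt L + 2) ^ (2 * c + 1) := by
      calc Fintype.card α ≤ L ^ c := hα
        _ ≤ ((Nat.sqrt L + 1) * (Nat.sqrt L + 1)) ^ c := Nat.pow_le_pow_left hs2.le c
        _ = (Nat.sqrt L + 1) ^ (2 * c) := by rw [← pow_two, ← pow_mul]
        _ ≤ (Nat.sqrt L + 2) ^ (2 * c) := Nat.pow_le_pow_left (by omega) _
        _ < (Nat.sqrt L + 2) ^ (2 * c + 1) := Nat.pow_lt_pow_right (by omega) (by omega)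
    have hK : Fintype.card α < (Nat.sqrt L + 1 + 1) ^ m.primeFactors.card :=
      lt_of_lt_of_le hK2 (Nat.pow_le_pow_right (by omega) hω)
    obtain ⟨Q', i1, i2, C', g1, g2, g3, g4, g5⟩ := symmetrise C (k := Nat.sqrt L + 1) hm le_rfl
      (by omega) (modGates_mono hC1 hdvd) Majority (by
        intro π x
        exact majority_comp (Equiv.sumCongr π (Equiv.refl M)) x) hC2 hK
    refine ⟨Q', i1, i2, C', g1, g2, g3, by omega, ?_⟩
    have hQ : Fintype.card Q ≤ (n + 2) ^ e₀ := by
      have := hC4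
      rwa [Fintype.card_sum] at this
    refine g5.trans ((?_ : _ ≤ _).trans
      (size_bound c (Fintype.card α) n m e₀ (Nat.sqrt L) hs1 (by omega) hK2))
    have : (Fintype.card α + 1) * (Fintype.card Q + 3)
        ≤ (Fintype.card α + 1) * ((n + 2) ^ e₀ + 3) := Nat.mul_le_mul_left _ (by omega)
    omega
  · intro h
    obtain ⟨m, d, e, hm, h⟩ := h 0
    refine ⟨m, d, e, hm, ?_⟩
    intro I _
    obtain ⟨Q, i1, i2, C, -, g2, g3, g4, g5⟩ := h Empty I inferInstance inferInstance (by simp)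
    refine ⟨Q, i1, C.relabel (Equiv.emptySum Empty I), g2, relabel_computes g3 _, g4, ?_⟩
    simpa using g5

end H688R2.Sym
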