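import Mathlib

/-!
# Numbers are determined by residues of binomial coefficients
-/

namespace H688R2.Sym

open Finset

theorem choose_pow_modEq (p : ℕ) (hp : p.Prime) : ∀ e w : ℕ, w.choose (p ^ e) ≡ w / p ^ e [MOD p]
  | 0, w => by simp; rfl
  | e + 1, w => by
    have : Fact p.Prime := ⟨hp⟩
    have h := Choose.choose_modEq_choose_mod_mul_choose_div_nat (n := w) (k := p ^ (e + 1)) (p := p)
    have h1 : p ^ (e + 1) % p = 0 := by rw [pow_succ]; exact Nat.mul_mod_left _ _
    have h2 : p ^ (e + 1) / p = p ^ e := by rw [pow_succ]; exact Nat.mul_div_cancel _ hp.pos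
    rw [h1, h2, Nat.choose_zero_right, one_mul] at h
    refine h.trans ((choose_pow_modEq p hp e (w / p)).trans ?_)
    rw [Nat.div_div_eq_div_mul, pow_succ, mul_comm p]

theorem modEq_of_digits (p : ℕ) (hp : 0 < p) : ∀ E w j : ℕ,
    (∀ e, e ≤ E → w / p ^ e ≡ j / p ^ e [MOD p]) → w ≡ j [MOD p ^ (E + 1)]
  | 0, w, j, h => by
    have := h 0 le_rfl
    simpa using this
  | E + 1, w, j, h => by
    have h0 := h 0 (by omega)
    simp only [pow_zero, Nat.div_one] at h0
    have h1 : w / p ≡ j / p [MOD p ^ (E + 1)] := by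
      apply modEq_of_digits p hp E
      intro e he
      have := h (e + 1) (by omega)
      rw [pow_succ, mul_comm, ← Nat.div_div_eq_div_mul, ← Nat.div_div_eq_div_mul] at this
      exact this
    have e1 : w = p * (w / p) + w % p := (Nat.div_add_mod w p).symm
    have e2 : j = p * (j / p) + j % p := (Nat.div_add_mod j p).symm
    rw [e1, e2, h0]
    apply Nat.ModEq.add_right
    rw [pow_succ, mul_comm (p ^ (E + 1)) p]
    exact Nat.ModEq.mul_left' p h1

/-- Numbers below `(k + 1) ^ ω(m)` are determined by the residues modulo the primes `p ∣ m` of the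
binomial coefficients with lower index a power of `p` at most `k`. -/
theorem eq_of_choose {m k w j : ℕ} (hk : 1 ≤ k) (hw : w < (k + 1) ^ m.primeFactors.card)
    (hj : j < (k + 1) ^ m.primeFactors.card)
    (h : ∀ p e, p ∈ m.primeFactors → p ^ e ≤ k → w.choose (p ^ e) % p = j.choose (p ^ e) % p) :
    w = j := by
  have key : ∀ p ∈ m.primeFactors, w ≡ j [MOD p ^ (Nat.log p k + 1)] := by
    intro p hp
    have hpp := Nat.prime_of_mem_primeFactors hp
    apply modEq_of_digits p hpp.pos
    intro e he
    have hle : p ^ e ≤ k := Nat.pow_le_of_le_log (by omega) he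
    exact ((choose_pow_modEq p hpp e w).symm.trans (h p e hp hle)).trans
      (choose_pow_modEq p hpp e j)
  have hprod : (k + 1) ^ m.primeFactors.card ≤ ∏ p ∈ m.primeFactors, p ^ (Nat.log p k + 1) := by
    rw [← Finset.prod_const]
    apply Finset.prod_le_prod'
    intro p hp
    exact Nat.lt_pow_succ_log_self (Nat.prime_of_mem_primeFactors hp).one_lt k
  have hcop : (m.primeFactors : Set ℕ).Pairwise
      (Function.onFun Nat.Coprime fun p => p ^ (Nat.log p k + 1)) := by
    intro p hp q hq hpq
    exact Nat.Coprime.pow _ _ ((Nat.coprime_primes (Nat.prime_of_mem_primeFactors hp)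
      (Nat.prime_of_mem_primeFactors hq)).2 hpq)
  have main : ∀ w j : ℕ, j ≤ w → w < (k + 1) ^ m.primeFactors.card →
      (∀ p ∈ m.primeFactors, w ≡ j [MOD p ^ (Nat.log p k + 1)]) → w = j := by
    intro w j hle hw hall
    have hd : (∏ p ∈ m.primeFactors, p ^ (Nat.log p k + 1)) ∣ w - j := by
      apply Finset.prod_dvd_of_isRelPrime
      · intro p hp q hq hpq
        exact Nat.coprime_iff_isRelPrime.1 (hcop hp hq hpq)
      · intro p hp
        exact (Nat.modEq_iff_dvd' hle).1 (hall p hp).symm
    by_contra hne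
    have := Nat.le_of_dvd (by omega) hd
    omega
  rcases le_total j w with hle | hle
  · exact main w j hle hw key
  · exact (main j w hle hj fun p hp => (key p hp).symm).symm

end H688R2.Sym
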