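import Pool.Agent.H688R2.Sym.Count
import Pool.Agent.H688R2.Sym.Defs

/-!
# Values of gates are periodic functions of the number of true inputs
-/

namespace H688R2.Sym

open Equiv Finset

section basic

variable {I Q : Type*} [Fintype Q]

open scoped Classical in
theorem sum_wires (C : Circuit I Q) (q : Q) (V : Q → Prop) :
    (∑ q' : {q' // C.wires q q' ≠ 0}, if V q'.1 then C.wires q q'.1 else 0)
      = ∑ q', if V q' then C.wires q q' else 0 := by
  rw [← Finset.sum_subtype (univ.filter fun q' => C.wires q q' ≠ 0) (by simp)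
    (fun q' => if V q' then C.wires q q' else 0)]
  apply sum_subset (subset_univ _)
  intro q' _ h
  simp only [mem_filter, mem_univ, true_and, not_not] at h
  rw [h]; simp

theorem val_input (C : Circuit I Q) (x : I → Prop) (q : Q) (i : I) (h : C.input q = some i) :
    C.val x q ↔ x i := by
  rw [Circuit.val, h]

open scoped Classical in
theorem val_gate (C : Circuit I Q) (x : I → Prop) (q : Q) (h : C.input q = none) :
    C.val x q ↔ C.gate q (∑ q', if C.val x q' then C.wires q q' else 0)
      (∑ q', if ¬ C.val x q' then C.wires q q' else 0) := by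
  rw [Circuit.val, h]
  simp only
  rw [sum_wires C q (fun q' => C.val x q')]
  have h2 : (∑ q' : {q' // C.wires q q' ≠ 0}, if C.val x q'.1 then 0 else C.wires q q'.1)
      = ∑ q', if ¬ C.val x q' then C.wires q q' else 0 := by
    refine Eq.trans ?_ ((sum_wires C q (fun q' => ¬ C.val x q')).trans ?_)
    · apply sum_congr rfl
      intro q' _
      by_cases hq : C.val x q'.1 <;> simp [hq]
    · apply sum_congr rfl
      intro q' _
      by_cases hq : C.val x q' <;> simp [hq]
  rw [h2]

variable {α : Type*} [MulAction (Perm α) I] [MulAction (Perm α) Q]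

theorem val_smul (C : Circuit I Q) (hC : C.Invariant α) (π : Perm α) (x x' : I → Prop)
    (hx : ∀ i, x' (π • i) ↔ x i) : ∀ n q, C.level q = n → (C.val x' (π • q) ↔ C.val x q) := by
  classical
  intro n
  induction n using Nat.strong_induction_on with
  | _ n ih =>
    intro q hq
    rcases hi : C.input q with _ | i
    · have hi' : C.input (π • q) = none := by rw [hC.input, hi]; rfl
      rw [val_gate C x' _ hi', val_gate C x _ hi, hC.gate]
      have key : ∀ q', C.wires q q' ≠ 0 → (C.val x' (π • q') ↔ C.val x q') := by
        intro q' hw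
        exact ih (C.level q') (by rw [← hq]; exact C.level_lt q q' hw) q' rfl
      have e1 : (∑ q', if C.val x' q' then C.wires (π • q) q' else 0)
          = ∑ q', if C.val x q' then C.wires q q' else 0 := by
        rw [← Equiv.sum_comp (MulAction.toPerm π)]
        apply sum_congr rfl
        intro q' _
        simp only [MulAction.toPerm_apply, hC.wires]
        by_cases hw : C.wires q q' = 0
        · rw [hw]; simp
        · simp only [key q' hw]
      have e2 : (∑ q', if ¬ C.val x' q' then C.wires (π • q) q' else 0)
          = ∑ q', if ¬ C.val x q' then C.wires q q' else 0 := by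
        rw [← Equiv.sum_comp (MulAction.toPerm π)]
        apply sum_congr rfl
        intro q' _
        simp only [MulAction.toPerm_apply, hC.wires]
        by_cases hw : C.wires q q' = 0
        · rw [hw]; simp
        · simp only [key q' hw]
      rw [e1, e2]
    · have hi' : C.input (π • q) = some (π • i) := by rw [hC.input, hi]; rfl
      rw [val_input C x' _ _ hi', val_input C x _ _ hi, hx]

end basic

section count

variable {α : Type*} [DecidableEq α] [Fintype α] {Q : Type*} [Fintype Q] [MulAction (Perm α) Q]

/-- the middle region -/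
def Mid (L : ℕ) (y : Finset α) : Prop := L ≤ y.card ∧ y.card + L ≤ Fintype.card α

open scoped Classical in
theorem count_periodic (m k t : ℕ) (hm : m ≠ 0) (S : Finset α) (w : Q → ℕ)
    (V : Finset α → Q → Prop) (hS : S.card ≤ k) (hsup : ∀ q' : Q, (sup q' : Finset α).card ≤ k)
    (hw : ∀ h : Perm α, Perm.sign h = 1 → (∀ x ∈ S, h x = x) → ∀ q', w (h • q') = w q')
    (hVe : ∀ h : Perm α, Perm.sign h = 1 → ∀ y q', V (y.map h.toEmbedding) (h • q') ↔ V y q')
    (hVi : ∀ q', w q' ≠ 0 → ∀ y y' : Finset α, Mid (2 * k + t + 1) y → Mid (2 * k + t + 1) y' →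
      y.card ≡ y'.card [MOD per m k] → (∀ a ∈ (sup q' : Finset α), a ∈ y ↔ a ∈ y') →
      (V y q' ↔ V y' q'))
    (y y' : Finset α) (hy : Mid (2 * k + t + 1) y) (hy' : Mid (2 * k + t + 1) y')
    (hyy : y.card ≡ y'.card [MOD per m k]) (hag : ∀ a ∈ S, a ∈ y ↔ a ∈ y') :
    (∑ q', if V y q' then w q' else 0) ≡ (∑ q', if V y' q' then w q' else 0) [MOD m] ∧
    min (∑ q', if V y q' then w q' else 0) t = min (∑ q', if V y' q' then w q' else 0) t := by
  let N : Finset α → Finset α → ℕ := fun A z =>
    ∑ q' : Q, if sup q' \ S = A ∧ V z q' then w q' else 0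
  have hNbig : ∀ A z, k < A.card → N A z = 0 := by
    intro A z hA
    apply sum_eq_zero
    intro q' _
    rw [if_neg]
    rintro ⟨h, -⟩
    have h1 : (sup q' \ S : Finset α).card ≤ (sup q' : Finset α).card :=
      card_le_card sdiff_subset
    have h2 := hsup q'
    rw [h] at h1
    omega
  -- the main claim
  have hN : ∀ (z z' : Finset α), Mid (2 * k + t + 1) z → Mid (2 * k + t + 1) z' →
      z.card ≡ z'.card [MOD per m k] → (∀ a ∈ S, a ∈ z ↔ a ∈ z') →
      ∀ A A' : Finset α, A ⊆ Sᶜ → A' ⊆ Sᶜ → (A ∩ z).card = (A' ∩ z').card →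
      (A \ z).card = (A' \ z').card → N A z = N A' z' := by
    intro z z' hz hz' hzz hagz A A' hA hA' hc1 hc2
    have hcA : A.card = A'.card := by
      rw [← card_inter_add_card_sdiff A z, ← card_inter_add_card_sdiff A' z', hc1, hc2]
    by_cases hbig : k < A.card
    · rw [hNbig A z hbig, hNbig A' z' (by rw [← hcA]; exact hbig)]
    have hdis : ∀ {B T : Finset α}, B ⊆ Sᶜ → T ⊆ B → Disjoint S T := by
      intro B T hB hT
      rw [disjoint_left]
      intro a ha haT
      exact (mem_compl.1 (hB (hT haT))) ha
    have hKz := hz.1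
    have hKz2 := hz.2
    obtain ⟨h, hs, hfix, hB, hD⟩ := exists_perm (S := S) (B := A ∩ z) (D := A \ z)
      (B' := A' ∩ z') (D' := A' \ z') (hdis hA inter_subset_left) (hdis hA sdiff_subset)
      (disjoint_sdiff_inter A z).symm (hdis hA' inter_subset_left) (hdis hA' sdiff_subset)
      (disjoint_sdiff_inter A' z').symm hc1 hc2 (by
        have := card_inter_add_card_sdiff A z
        omega)
    have hSx : ∀ x, h x ∈ S ↔ x ∈ S := by
      intro x
      constructor
      · intro hx
        have := hfix _ hx
        rw [h.injective this] at hx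
        exact hx
      · intro hx
        rw [hfix x hx]; exact hx
    have hAx : ∀ x, h x ∈ A' ↔ x ∈ A := by
      intro x
      have e1 := hB x
      have e2 := hD x
      simp only [mem_inter, mem_sdiff] at e1 e2
      tauto
    have hzx : ∀ x, x ∈ A → (h x ∈ z' ↔ x ∈ z) := by
      intro x hx
      have e1 := hB x
      have e3 := hAx x
      simp only [mem_inter] at e1
      tauto
    have hcond : ∀ q' : Q, sup (h • q') \ S = A' ↔ sup q' \ S = A := by
      intro q'
      constructor
      · intro e
        ext x
        rw [← hAx, ← e, mem_sdiff, mem_sdiff, mem_sup_smul, hSx]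
      · intro e
        ext x'
        obtain ⟨x, rfl⟩ := h.surjective x'
        rw [hAx, ← e, mem_sdiff, mem_sdiff, mem_sup_smul, hSx]
    have : N A' z' = ∑ q' : Q, if sup (h • q') \ S = A' ∧ V z' (h • q') then w (h • q') else 0 := by
      show (∑ q' : Q, _) = _
      rw [← Equiv.sum_comp (MulAction.toPerm h)]
      rfl
    rw [this]
    apply sum_congr rfl
    intro q' _
    rw [hw h hs hfix]
    by_cases hq : sup q' \ S = A
    · have hq2 := (hcond q').2 hq
      by_cases hw0 : w q' = 0
      · rw [hw0]; simp
      · have hv : V z' (h • q') ↔ V z q' := by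
          rw [← hVe h hs z q']
          symm
          apply hVi (h • q') (by rw [hw h hs hfix]; exact hw0)
          · constructor
            · rw [card_map]; exact hz.1
            · rw [card_map]; exact hz.2
          · exact hz'
          · rw [card_map]; exact hzz
          · intro a ha
            obtain ⟨x, rfl⟩ := h.surjective a
            rw [mem_sup_smul] at ha
            have e1 : h x ∈ z.map h.toEmbedding ↔ x ∈ z := by
              rw [mem_map]
              constructor
              · rintro ⟨x', hx', he⟩
                rw [← h.injective he]; exact hx'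
              · intro hx; exact ⟨x, hx, rfl⟩
            rw [e1]
            by_cases hxS : x ∈ S
            · rw [hfix x hxS]; exact hagz x hxS
            · have hxA : x ∈ A := by rw [← hq, mem_sdiff]; exact ⟨ha, hxS⟩
              exact (hzx x hxA).symm
        simp only [hq, hq2, hv]
    · have hq2 := mt (hcond q').1 hq
      simp [hq, hq2]
  -- the decomposition
  have hdec : ∀ z, (∑ q', if V z q' then w q' else 0) = ∑ A ∈ (Sᶜ : Finset α).powerset, N A z := by
    intro z
    show _ = ∑ A ∈ (Sᶜ : Finset α).powerset, ∑ q' : Q, _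
    rw [sum_comm]
    apply sum_congr rfl
    intro q' _
    by_cases hv : V z q'
    · simp only [hv, and_true, if_true]
      rw [sum_ite_eq (Sᶜ : Finset α).powerset (sup q' \ S) (fun _ => w q')]
      rw [if_pos]
      rw [mem_powerset]
      intro a ha
      rw [mem_compl]
      exact (mem_sdiff.1 ha).2
    · simp [hv]
  let ν : ℕ → ℕ → ℕ := fun u v =>
    if h : ∃ A : Finset α, A ⊆ Sᶜ ∧ (A ∩ y).card = u ∧ (A \ y).card = v then N h.choose y else 0
  have hsizes : ∀ z : Finset α, Mid (2 * k + t + 1) z →
      k + t + 1 ≤ (Sᶜ ∩ z).card ∧ k + t + 1 ≤ (Sᶜ \ z).card := by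
    intro z hz
    have h1 : z.card ≤ (Sᶜ ∩ z).card + S.card := by
      have : z ⊆ (Sᶜ ∩ z) ∪ S := by
        intro a ha
        rw [mem_union, mem_inter, mem_compl]
        tauto
      exact (card_le_card this).trans (card_union_le _ _)
    have h2 : Fintype.card α ≤ (Sᶜ \ z).card + z.card + S.card := by
      have : (univ : Finset α) ⊆ ((Sᶜ \ z) ∪ z) ∪ S := by
        intro a _
        rw [mem_union, mem_union, mem_sdiff, mem_compl]
        tauto
      rw [← card_univ]
      refine (card_le_card this).trans ((card_union_le _ _).trans ?_)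
      exact Nat.add_le_add_right (card_union_le _ _) _
    have h3 := hz.1
    have h4 := hz.2
    omega
  have hν : ∀ z : Finset α, Mid (2 * k + t + 1) z → z.card ≡ y.card [MOD per m k] →
      (∀ a ∈ S, a ∈ z ↔ a ∈ y) →
      ∀ A : Finset α, A ⊆ Sᶜ → N A z = ν (A ∩ z).card (A \ z).card := by
    intro z hz hzz hagz A hA
    simp only [ν]
    split_ifs with h
    · obtain ⟨g1, g2, g3⟩ := h.choose_spec
      exact hN z y hz hy hzz hagz A _ hA g1 g2.symm g3.symm
    · by_cases hbig : k < A.card
      · exact hNbig A z hbig
      · exfalso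
        apply h
        obtain ⟨s1, s2⟩ := hsizes y hy
        have hAc := card_inter_add_card_sdiff A z
        obtain ⟨B, hB, hBc⟩ := exists_subset_card_eq (s := Sᶜ ∩ y) (n := (A ∩ z).card)
          (by omega)
        obtain ⟨D, hD, hDc⟩ := exists_subset_card_eq (s := Sᶜ \ y) (n := (A \ z).card)
          (by omega)
        refine ⟨B ∪ D, union_subset (hB.trans inter_subset_left) (hD.trans sdiff_subset), ?_, ?_⟩
        · rw [← hBc]
          congr 1
          ext x
          simp only [mem_inter, mem_union]
          constructor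
          · rintro ⟨h | h, hy⟩
            · exact h
            · exact absurd hy (mem_sdiff.1 (hD h)).2
          · intro h
            exact ⟨Or.inl h, (mem_inter.1 (hB h)).2⟩
        · rw [← hDc]
          congr 1
          ext x
          simp only [mem_union, mem_sdiff]
          constructor
          · rintro ⟨h | h, hy⟩
            · exact absurd (mem_inter.1 (hB h)).2 hy
            · exact h
          · intro h
            exact ⟨Or.inr h, (mem_sdiff.1 (hD h)).2⟩
  have hν0 : ∀ u v, k < u ∨ k < v → ν u v = 0 := by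
    intro u v huv
    simp only [ν]
    split_ifs with h
    · obtain ⟨g1, g2, g3⟩ := h.choose_spec
      apply hNbig
      have hAc := card_inter_add_card_sdiff h.choose y
      omega
    · rfl
  have hform : ∀ z : Finset α, Mid (2 * k + t + 1) z → z.card ≡ y.card [MOD per m k] →
      (∀ a ∈ S, a ∈ z ↔ a ∈ y) →
      (∑ q', if V z q' then w q' else 0) = ∑ u ∈ range (k + 1), ∑ v ∈ range (k + 1),
        (Sᶜ ∩ z).card.choose u * ((Sᶜ \ z).card.choose v * ν u v) := by
    intro z hz hzz hagz
    rw [hdec z]
    have e1 : ∑ A ∈ (Sᶜ : Finset α).powerset, N A z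
        = ∑ A ∈ (Sᶜ : Finset α).powerset, ν (A ∩ z).card (A \ z).card := by
      apply sum_congr rfl
      intro A hA
      exact hν z hz hzz hagz A (mem_powerset.1 hA)
    rw [e1, sum_powerset_split]
    obtain ⟨s1, s2⟩ := hsizes z hz
    symm
    have e2 : ∀ u, ∑ v ∈ range (k + 1), (Sᶜ ∩ z).card.choose u * ((Sᶜ \ z).card.choose v * ν u v)
        = ∑ v ∈ range ((Sᶜ \ z).card + 1),
          (Sᶜ ∩ z).card.choose u * ((Sᶜ \ z).card.choose v * ν u v) := by
      intro u
      apply sum_subset
      · intro v hv
        rw [mem_range] at hv ⊢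
        omega
      · intro v _ hv
        rw [mem_range, not_lt] at hv
        rw [hν0 u v (by omega)]; simp
    rw [sum_congr rfl (fun u _ => e2 u)]
    apply sum_subset
    · intro u hu
      rw [mem_range] at hu ⊢
      omega
    · intro u _ hu
      rw [mem_range, not_lt] at hu
      apply sum_eq_zero
      intro v _
      rw [hν0 u v (by omega)]; simp
  rw [hform y hy rfl (fun a _ => Iff.rfl), hform y' hy' hyy.symm (fun a ha => (hag a ha).symm)]
  obtain ⟨s1, s2⟩ := hsizes y hy
  obtain ⟨s1', s2'⟩ := hsizes y' hy'
  -- congruences of the sizes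
  have hSy : (S ∩ y) = (S ∩ y') := by
    ext a
    simp only [mem_inter]
    constructor
    · rintro ⟨h1, h2⟩; exact ⟨h1, (hag a h1).1 h2⟩
    · rintro ⟨h1, h2⟩; exact ⟨h1, (hag a h1).2 h2⟩
  have c1 : ∀ z : Finset α, z.card = (Sᶜ ∩ z).card + (S ∩ z).card := by
    intro z
    have h1 := card_inter_add_card_sdiff z S
    have h2 : z ∩ S = S ∩ z := inter_comm _ _
    have h3 : z \ S = Sᶜ ∩ z := by
      ext a; simp only [mem_sdiff, mem_inter, mem_compl]; tauto
    rw [h2, h3] at h1
    omega
  have c2 : ∀ z : Finset α, (Sᶜ \ z).card + (Sᶜ ∩ z).card = (Sᶜ : Finset α).card := by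
    intro z
    have := card_inter_add_card_sdiff (Sᶜ : Finset α) z
    omega
  have m1 : (Sᶜ ∩ y).card ≡ (Sᶜ ∩ y').card [MOD per m k] := by
    have h1 := c1 y
    have h2 := c1 y'
    rw [hSy] at h1
    rw [h1, h2] at hyy
    exact Nat.ModEq.add_right_cancel' _ hyy
  have m2 : (Sᶜ \ y).card ≡ (Sᶜ \ y').card [MOD per m k] := by
    have h1 := c2 y
    have h2 := c2 y'
    have h3 : (Sᶜ \ y).card + (Sᶜ ∩ y).card ≡ (Sᶜ \ y').card + (Sᶜ ∩ y').card [MOD per m k] := by
      rw [h1, h2]
    exact Nat.ModEq.add_right_cancel m1 h3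
  exact sum_choose_periodic m k t hm ν m1 m2 s1 s2 s1' s2'

end count

section main

variable {α : Type*} [DecidableEq α] [Fintype α] {I Q : Type*} [Fintype Q]
  [MulAction (Perm α) I] [MulAction (Perm α) Q]

/-- The value of a gate on the inputs `x y` depends, in the middle region, only on the size of `y`
modulo the period and on the intersection of `y` with the support of the gate. -/
theorem val_periodic (C : Circuit I Q) (hC : C.Invariant α) {m t k : ℕ} (hm : m ≠ 0)
    (hG : C.ModGates m t)
    (hk : ∀ q : Q, (sup q : Finset α).card ≤ k ∧ IsSup (sup q : Finset α) q)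
    (x : Finset α → I → Prop)
    (hxe : ∀ h : Perm α, Perm.sign h = 1 → ∀ y i, x (y.map h.toEmbedding) (h • i) ↔ x y i)
    (hxi : ∀ q i, C.input q = some i → ∀ y y' : Finset α,
      (∀ a ∈ (sup q : Finset α), a ∈ y ↔ a ∈ y') → (x y i ↔ x y' i)) :
    ∀ n q, C.level q = n → ∀ y y' : Finset α, Mid (2 * k + t + 1) y → Mid (2 * k + t + 1) y' →
      y.card ≡ y'.card [MOD per m k] → (∀ a ∈ (sup q : Finset α), a ∈ y ↔ a ∈ y') →
      (C.val (x y) q ↔ C.val (x y') q) := by
  classical
  intro n
  induction n using Nat.strong_induction_on with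
  | _ n ih =>
    intro q hq y y' hy hy' hyy hag
    rcases hi : C.input q with _ | i
    · rw [val_gate C _ _ hi, val_gate C _ _ hi]
      have hw : ∀ h : Perm α, Perm.sign h = 1 → (∀ x ∈ (sup q : Finset α), h x = x) →
          ∀ q', C.wires q (h • q') = C.wires q q' := by
        intro h hs hfix q'
        have := hC.wires h q q'
        rw [(hk q).2 h hs hfix] at this
        exact this
      have hVe : ∀ h : Perm α, Perm.sign h = 1 → ∀ (y : Finset α) q',
          C.val (x (y.map h.toEmbedding)) (h • q') ↔ C.val (x y) q' := by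
        intro h hs y q'
        exact val_smul C hC h (x y) (x (y.map h.toEmbedding)) (fun i => hxe h hs y i) _ q' rfl
      have hVi : ∀ q', C.wires q q' ≠ 0 → ∀ y y' : Finset α, Mid (2 * k + t + 1) y →
          Mid (2 * k + t + 1) y' → y.card ≡ y'.card [MOD per m k] →
          (∀ a ∈ (sup q' : Finset α), a ∈ y ↔ a ∈ y') →
          (C.val (x y) q' ↔ C.val (x y') q') := by
        intro q' hw' y y' hy hy' hyy hag
        exact ih (C.level q') (by rw [← hq]; exact C.level_lt q q' hw') q' rfl y y' hy hy' hyy hag
      have r1 := count_periodic m k t hm (sup q) (C.wires q) (fun y q' => C.val (x y) q')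
        (hk q).1 (fun q' => (hk q').1) hw hVe hVi y y' hy hy' hyy hag
      have r2 := count_periodic m k t hm (sup q) (C.wires q) (fun y q' => ¬ C.val (x y) q')
        (hk q).1 (fun q' => (hk q').1) hw (fun h hs y q' => not_congr (hVe h hs y q'))
        (fun q' hw' y y' hy hy' hyy hag => not_congr (hVi q' hw' y y' hy hy' hyy hag))
        y y' hy hy' hyy hag
      refine hG q _ _ _ _ r1.1 r1.2 ?_
      convert r2.2
    · rw [val_input C _ _ _ hi, val_input C _ _ _ hi]
      exact hxi q i hi y y' hag

end main

end H688R2.Sym
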