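import Pool.Agent.H688R2.Sym.Maj
import Pool.Agent.H688R2.Sym.Lucas

/-!
# Symmetrisation over few inputs
-/

namespace H688R2.Sym

open Equiv Finset

/-- the gates of the symmetrised circuit -/
inductive UG (α Q : Type*) (m k K : ℕ)
  | inp (a : α)
  | mon (T : {T : Finset α // T.card ≤ k})
  | dig (p : Fin (m + 1)) (e : Fin (k + 1)) (c : Fin (m + 1))
  | eqn (j : Fin (K + 1))
  | cp (j : Fin (K + 1)) (q : Q)
  | pr (j : Fin (K + 1))
  | top

namespace UG

variable {α Q : Type*} {m k K : ℕ}

/-- as a sum type -/
def toSum : UG α Q m k K ≃ α ⊕ ({T : Finset α // T.card ≤ k} ⊕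
    ((Fin (m + 1) × Fin (k + 1) × Fin (m + 1)) ⊕ (Fin (K + 1) ⊕
      ((Fin (K + 1) × Q) ⊕ (Fin (K + 1) ⊕ Unit))))) where
  toFun
    | inp a => .inl a
    | mon T => .inr (.inl T)
    | dig p e c => .inr (.inr (.inl (p, e, c)))
    | eqn j => .inr (.inr (.inr (.inl j)))
    | cp j q => .inr (.inr (.inr (.inr (.inl (j, q)))))
    | pr j => .inr (.inr (.inr (.inr (.inr (.inl j)))))
    | top => .inr (.inr (.inr (.inr (.inr (.inr ())))))
  invFun
    | .inl a => inp a
    | .inr (.inl T) => mon T
    | .inr (.inr (.inl (p, e, c))) => dig p e c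
    | .inr (.inr (.inr (.inl j))) => eqn j
    | .inr (.inr (.inr (.inr (.inl (j, q))))) => cp j q
    | .inr (.inr (.inr (.inr (.inr (.inl j))))) => pr j
    | .inr (.inr (.inr (.inr (.inr (.inr ()))))) => top
  left_inv := by rintro (_ | _ | _ | _ | _ | _ | _) <;> rfl
  right_inv := by rintro (_ | _ | ⟨_, _, _⟩ | _ | ⟨_, _⟩ | _ | _) <;> rfl

noncomputable instance [Fintype α] [Fintype Q] : Fintype (UG α Q m k K) :=
  Fintype.ofEquiv _ toSum.symm

theorem card_subsets_le [Fintype α] :
    Fintype.card {T : Finset α // T.card ≤ k} ≤ (Fintype.card α + 1) ^ k := by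
  classical
  have : Fintype.card (Fin k → Option α) = (Fintype.card α + 1) ^ k := by
    rw [Fintype.card_fun, Fintype.card_option, Fintype.card_fin]
  rw [← this]
  apply Fintype.card_le_of_injective
    (fun T : {T : Finset α // T.card ≤ k} => fun i : Fin k => T.1.toList[i.1]?)
  intro T T' h
  have hlen : ∀ T : {T : Finset α // T.card ≤ k}, T.1.toList.length ≤ k := by
    intro T; rw [Finset.length_toList]; exact T.2
  have : T.1.toList = T'.1.toList := by
    apply List.ext_getElem?
    intro i
    by_cases hi : i < k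
    · exact congrFun h ⟨i, hi⟩
    · rw [List.getElem?_eq_none (by have := hlen T; omega),
        List.getElem?_eq_none (by have := hlen T'; omega)]
  apply Subtype.ext
  have e := congrArg List.toFinset this
  rwa [Finset.toList_toFinset, Finset.toList_toFinset] at e

theorem card_le [Fintype α] [Fintype Q] :
    Fintype.card (UG α Q m k K) ≤ Fintype.card α + ((Fintype.card α + 1) ^ k +
      ((m + 1) * ((k + 1) * (m + 1)) + ((K + 1) + ((K + 1) * Fintype.card Q + ((K + 1) + 1))))) := by
  rw [Fintype.card_congr (toSum (α := α) (Q := Q) (m := m) (k := k) (K := K))]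
  simp only [Fintype.card_sum, Fintype.card_prod, Fintype.card_fin, Fintype.card_unit]
  have := card_subsets_le (α := α) (k := k)
  omega

/-- permutations act on the inputs and on the conjunctions -/
def act (π : Perm α) : UG α Q m k K → UG α Q m k K
  | inp a => inp (π a)
  | mon T => mon ⟨T.1.map π.toEmbedding, by rw [card_map]; exact T.2⟩
  | dig p e c => dig p e c
  | eqn j => eqn j
  | cp j q => cp j q
  | pr j => pr j
  | top => top

noncomputable instance : MulAction (Perm α) (UG α Q m k K) where
  smul := act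
  one_smul := by
    rintro (_ | T | _ | _ | _ | _ | _) <;> try rfl
    show mon _ = mon _
    congr 1
    apply Subtype.ext
    ext x
    simp
    rfl
  mul_smul := by
    rintro π σ (_ | T | _ | _ | _ | _ | _) <;> try rfl
    show mon _ = mon _
    congr 1
    apply Subtype.ext
    ext x
    simp
    rfl

theorem smul_def (π : Perm α) (q : UG α Q m k K) : π • q = act π q := rfl

end UG

open UG

open scoped Classical in
/-- the symmetrised circuit -/
noncomputable def symm {α M Q : Type*} (C : Circuit (α ⊕ M) Q) (m k K : ℕ)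
    (y : Fin (K + 1) → Finset α) : Circuit (α ⊕ M) (UG α Q m k K) where
  level
    | inp _ => 0
    | mon _ => 1
    | dig _ _ _ => 2
    | eqn _ => 3
    | cp _ q => C.level q
    | pr _ => C.level C.out + 4
    | top => C.level C.out + 5
  input
    | inp a => some (Sum.inl a)
    | cp _ q => match C.input q with
      | some (Sum.inr b) => some (Sum.inr b)
      | _ => none
    | _ => none
  wires
    | mon T, inp a => if a ∈ T.1 then 1 else 0
    | dig _ e _, mon T => if T.1.card = e.1 then 1 else 0
    | eqn j, dig p e c => if p.1 ∈ m.primeFactors ∧ (∃ f, e.1 = p.1 ^ f) ∧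
        j.1.choose e.1 % p.1 = c.1 then 1 else 0
    | cp j q, cp j' q' => if j = j' then C.wires q q' else 0
    | pr j, eqn j' => if j = j' then 1 else 0
    | pr j, cp j' q => if j = j' ∧ q = C.out then 1 else 0
    | top, pr _ => 1
    | _, _ => 0
  gate
    | inp _ => fun _ _ => True
    | mon _ => fun _ b => b = 0
    | dig p _ c => fun a _ => if p.1 ∣ m then a % p.1 = c.1 else True
    | eqn _ => fun _ b => b = 0
    | cp j q => match C.input q with
      | some (Sum.inl a) => fun _ _ => a ∈ y j
      | _ => C.gate q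
    | pr _ => fun _ b => b = 0
    | top => fun a _ => a ≠ 0
  out := top
  level_lt := by
    rintro (_ | _ | _ | _ | ⟨j, q⟩ | _ | _) (_ | _ | _ | _ | ⟨j', q'⟩ | _ | _) h <;>
      simp at h ⊢ <;> try omega
    · exact C.level_lt q q' h.2
    · rw [h.2]; omega

section props

variable {α M Q : Type*} {m k K : ℕ} (C : Circuit (α ⊕ M) Q) (y : Fin (K + 1) → Finset α)

theorem symm_modGates {t : ℕ} (ht : 1 ≤ t) (hC : C.ModGates m t) :
    (symm C m k K y).ModGates m t := by
  have hz : ∀ a a' : ℕ, min a t = min a' t → (a = 0 ↔ a' = 0) := by intro a a' h; omega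
  intro q a b a' b' h1 h2 h3
  rcases q with _ | _ | ⟨p, e, c⟩ | _ | ⟨j, q⟩ | _ | _
  · exact Iff.rfl
  · exact hz b b' h3
  · show (if p.1 ∣ m then a % p.1 = c.1 else True) ↔ (if p.1 ∣ m then a' % p.1 = c.1 else True)
    split_ifs with h
    · have : a % p.1 = a' % p.1 := Nat.ModEq.of_dvd h h1
      rw [this]
    · exact Iff.rfl
  · exact hz b b' h3
  · show (match C.input q with
      | some (Sum.inl a) => fun _ _ => a ∈ y j
      | _ => C.gate q) a b ↔ (match C.input q with
      | some (Sum.inl a) => fun _ _ => a ∈ y j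
      | _ => C.gate q) a' b'
    rcases C.input q with _ | _ | _
    · exact hC q a b a' b' h1 h2 h3
    · exact Iff.rfl
    · exact hC q a b a' b' h1 h2 h3
  · exact hz b b' h3
  · exact not_congr (hz a a' h2)

theorem symm_invariant [Fintype α] :
    letI := moveLeft α M
    (symm C m k K y).Invariant α := by
  classical
  letI := moveLeft α M
  refine ⟨?_, ?_, ?_, ?_⟩
  · rintro π (_ | _ | _ | _ | ⟨j, q⟩ | _ | _) <;> try rfl
    show (match C.input q with
      | some (Sum.inr b) => some (Sum.inr b)
      | _ => none) = Option.map _ (match C.input q with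
      | some (Sum.inr b) => some (Sum.inr b)
      | _ => none)
    rcases C.input q with _ | _ | _ <;> rfl
  · rintro π (_ | T | _ | _ | ⟨j, q⟩ | _ | _) (_ | T' | _ | _ | ⟨j', q'⟩ | _ | _) <;> try rfl
    · rename_i a
      show (if π a ∈ T.1.map π.toEmbedding then 1 else 0) = (if a ∈ T.1 then 1 else 0)
      congr 1
      simp
    · rename_i p e c
      show (if (T'.1.map π.toEmbedding).card = e.1 then 1 else 0)
        = (if T'.1.card = e.1 then 1 else 0)
      rw [card_map]
  · rintro π (_ | T | _ | _ | ⟨j, q⟩ | _ | _) <;> rfl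
  · intro π; rfl

end props

end H688R2.Sym
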